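import Mathlib

/-!
# The Fermat cubic and the collinearity relation
-/

set_option autoImplicit false

namespace Pool.Agent.H638R3.IT

open Matrix

variable {B : Type*} [CommRing B]

/-- the Fermat cubic form -/
def fer (v : Fin 3 → B) : B := v 0 ^ 3 + v 1 ^ 3 + v 2 ^ 3

/-- the matrix of the three trilinear forms -/
def NN (q v : Fin 3 → B) : Matrix (Fin 3) (Fin 3) B :=
  !![q 0 * v 0, q 1 * v 1, q 2 * v 2;
     q 1 * v 2, q 2 * v 0, q 0 * v 1;
     q 2 * v 1, q 0 * v 2, q 1 * v 0]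

/-- the relation `q + v + u = 0` on the cubic, as three trilinear equations -/
def Rel (q v u : Fin 3 → B) : Prop :=
  q 0 * v 0 * u 0 + q 1 * v 1 * u 1 + q 2 * v 2 * u 2 = 0 ∧
  q 1 * v 2 * u 0 + q 2 * v 0 * u 1 + q 0 * v 1 * u 2 = 0 ∧
  q 2 * v 1 * u 0 + q 0 * v 2 * u 1 + q 1 * v 0 * u 2 = 0

theorem Rel.swap {q v u : Fin 3 → B} (h : Rel q v u) : Rel q u v := by
  obtain ⟨h0, h1, h2⟩ := h
  refine ⟨?_, ?_, ?_⟩
  · linear_combination h0
  · linear_combination h2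
  · linear_combination h1

theorem Rel.rot {q v u : Fin 3 → B} (h : Rel q v u) : Rel u q v := by
  obtain ⟨h0, h1, h2⟩ := h
  refine ⟨?_, ?_, ?_⟩
  · linear_combination h0
  · linear_combination h1
  · linear_combination h2

/-- first solution vector -/
def SS (q v : Fin 3 → B) : Fin 3 → B :=
  ![v 0 ^ 2 * (q 1 * q 2) - q 0 ^ 2 * (v 1 * v 2),
    v 1 ^ 2 * (q 0 * q 2) - q 1 ^ 2 * (v 0 * v 2),
    v 2 ^ 2 * (q 0 * q 1) - q 2 ^ 2 * (v 0 * v 1)]

/-- second solution vector -/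
def RR (q v : Fin 3 → B) : Fin 3 → B :=
  ![q 2 ^ 2 * (v 0 * v 2) - v 1 ^ 2 * (q 0 * q 1),
    q 0 ^ 2 * (v 0 * v 1) - v 2 ^ 2 * (q 1 * q 2),
    q 1 ^ 2 * (v 1 * v 2) - v 0 ^ 2 * (q 0 * q 2)]

theorem rel_SS {q v : Fin 3 → B} (hq : fer q = 0) (hv : fer v = 0) : Rel q v (SS q v) := by
  simp only [fer] at hq hv
  refine ⟨?_, ?_, ?_⟩ <;> simp [SS]
  · linear_combination (q 0 * q 1 * q 2) * hv - (v 0 * v 1 * v 2) * hq
  · ring
  · ring

theorem rel_RR {q v : Fin 3 → B} (hq : fer q = 0) (hv : fer v = 0) : Rel q v (RR q v) := by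
  simp only [fer] at hq hv
  refine ⟨?_, ?_, ?_⟩ <;> simp [RR]
  · ring
  · ring
  · linear_combination (-q 0 * q 1 * q 2) * hv + (v 0 * v 1 * v 2) * hq

theorem fer_SS {q v : Fin 3 → B} (hq : fer q = 0) (hv : fer v = 0) : fer (SS q v) = 0 := by
  simp only [fer] at hq hv ⊢
  simp [SS]
  grind

theorem fer_RR {q v : Fin 3 → B} (hq : fer q = 0) (hv : fer v = 0) : fer (RR q v) = 0 := by
  simp only [fer] at hq hv ⊢
  simp [RR]
  grind

end Pool.Agent.H638R3.IT
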