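import Mathlib
import Pool.Agent.H638R3.IT.Fermat

/-!
# The Fermat cubic over a field of characteristic zero
-/

set_option autoImplicit false

namespace Pool.Agent.H638R3.IT

open Matrix

variable {K : Type*} [Field K]

theorem ne_zero_iff3 {v : Fin 3 → K} : v ≠ 0 ↔ ¬ (v 0 = 0 ∧ v 1 = 0 ∧ v 2 = 0) := by
  constructor
  · rintro h ⟨h0, h1, h2⟩
    apply h
    funext i
    fin_cases i <;> simp [h0, h1, h2]
  · rintro h rfl
    simp at h

/-- not both solution vectors vanish -/
theorem complete [CharZero K] {q v : Fin 3 → K} (hq : fer q = 0) (hv : fer v = 0) (hq0 : q ≠ 0)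
    (hv0 : v ≠ 0) (hS : SS q v = 0) (hR : RR q v = 0) : False := by
  rw [ne_zero_iff3] at hq0 hv0
  have s0 := congrFun hS 0
  have s1 := congrFun hS 1
  have s2 := congrFun hS 2
  have r0 := congrFun hR 0
  have r1 := congrFun hR 1
  have r2 := congrFun hR 2
  simp only [SS, RR, fer] at s0 s1 s2 r0 r1 r2 hq hv
  simp only [Matrix.cons_val_zero, Matrix.cons_val_one, Matrix.cons_val, Pi.zero_apply]
    at s0 s1 s2 r0 r1 r2
  generalize q 0 = a at *
  generalize q 1 = b at *
  generalize q 2 = c at *
  generalize v 0 = x at *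
  generalize v 1 = y at *
  generalize v 2 = z at *
  have e1 : (a ^ 3 - b ^ 3) * (x * y * z) = 0 := by
    linear_combination - x * a * s0 - x * b * r2
  have e2 : (b ^ 3 - c ^ 3) * (x * y * z) = 0 := by
    linear_combination - y * b * s1 - y * c * r0
  by_cases hxyz : x * y * z = 0
  · have g1 : x ^ 3 * (a * b * c) = 0 := by linear_combination x * a * s0 + a ^ 3 * hxyz
    have g2 : y ^ 3 * (a * b * c) = 0 := by linear_combination y * b * s1 + b ^ 3 * hxyz
    have g3 : z ^ 3 * (a * b * c) = 0 := by linear_combination z * c * s2 + c ^ 3 * hxyz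
    have habc : a * b * c = 0 := by
      by_contra hne
      apply hv0
      refine ⟨?_, ?_, ?_⟩
      · exact pow_eq_zero_iff (three_ne_zero) |>.1 ((mul_eq_zero.1 g1).resolve_right hne)
      · exact pow_eq_zero_iff (three_ne_zero) |>.1 ((mul_eq_zero.1 g2).resolve_right hne)
      · exact pow_eq_zero_iff (three_ne_zero) |>.1 ((mul_eq_zero.1 g3).resolve_right hne)
    rcases mul_eq_zero.1 habc with hab | hc
    · rcases mul_eq_zero.1 hab with ha | hb
      · subst ha
        have hb : b ≠ 0 := by
          rintro rfl
          apply hq0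
          refine ⟨rfl, rfl, ?_⟩
          exact pow_eq_zero_iff (three_ne_zero) |>.1 (by linear_combination hq)
        have hc : c ≠ 0 := by
          rintro rfl
          apply hq0
          refine ⟨rfl, ?_, rfl⟩
          exact pow_eq_zero_iff (three_ne_zero) |>.1 (by linear_combination hq)
        have hx : x = 0 := by
          have : x ^ 2 * (b * c) = 0 := by linear_combination s0
          have := (mul_eq_zero.1 this).resolve_right (mul_ne_zero hb hc)
          exact pow_eq_zero_iff two_ne_zero |>.1 this
        have hz : z = 0 := by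
          have : z ^ 2 * (b * c) = 0 := by linear_combination -r1
          have := (mul_eq_zero.1 this).resolve_right (mul_ne_zero hb hc)
          exact pow_eq_zero_iff two_ne_zero |>.1 this
        subst hx hz
        apply hv0
        refine ⟨rfl, ?_, rfl⟩
        exact pow_eq_zero_iff (three_ne_zero) |>.1 (by linear_combination hv)
      · subst hb
        have ha : a ≠ 0 := by
          rintro rfl
          apply hq0
          refine ⟨rfl, rfl, ?_⟩
          exact pow_eq_zero_iff (three_ne_zero) |>.1 (by linear_combination hq)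
        have hc : c ≠ 0 := by
          rintro rfl
          apply hq0
          refine ⟨?_, rfl, rfl⟩
          exact pow_eq_zero_iff (three_ne_zero) |>.1 (by linear_combination hq)
        have hy : y = 0 := by
          have : y ^ 2 * (a * c) = 0 := by linear_combination s1
          have := (mul_eq_zero.1 this).resolve_right (mul_ne_zero ha hc)
          exact pow_eq_zero_iff two_ne_zero |>.1 this
        have hx : x = 0 := by
          have : x ^ 2 * (a * c) = 0 := by linear_combination -r2
          have := (mul_eq_zero.1 this).resolve_right (mul_ne_zero ha hc)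
          exact pow_eq_zero_iff two_ne_zero |>.1 this
        subst hx hy
        apply hv0
        refine ⟨rfl, rfl, ?_⟩
        exact pow_eq_zero_iff (three_ne_zero) |>.1 (by linear_combination hv)
    · subst hc
      have ha : a ≠ 0 := by
        rintro rfl
        apply hq0
        refine ⟨rfl, ?_, rfl⟩
        exact pow_eq_zero_iff (three_ne_zero) |>.1 (by linear_combination hq)
      have hb : b ≠ 0 := by
        rintro rfl
        apply hq0
        refine ⟨?_, rfl, rfl⟩
        exact pow_eq_zero_iff (three_ne_zero) |>.1 (by linear_combination hq)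
      have hz : z = 0 := by
        have : z ^ 2 * (a * b) = 0 := by linear_combination s2
        have := (mul_eq_zero.1 this).resolve_right (mul_ne_zero ha hb)
        exact pow_eq_zero_iff two_ne_zero |>.1 this
      have hy : y = 0 := by
        have : y ^ 2 * (a * b) = 0 := by linear_combination -r0
        have := (mul_eq_zero.1 this).resolve_right (mul_ne_zero ha hb)
        exact pow_eq_zero_iff two_ne_zero |>.1 this
      subst hy hz
      apply hv0
      refine ⟨?_, rfl, rfl⟩
      exact pow_eq_zero_iff (three_ne_zero) |>.1 (by linear_combination hv)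
  · have h1 := (mul_eq_zero.1 e1).resolve_right hxyz
    have h2 := (mul_eq_zero.1 e2).resolve_right hxyz
    have h3 : (3 : K) ≠ 0 := three_ne_zero
    have ha : a = 0 := by
      have : (3 : K) * a ^ 3 = 0 := by linear_combination hq + 2 * h1 + h2
      exact pow_eq_zero_iff (three_ne_zero) |>.1 ((mul_eq_zero.1 this).resolve_left h3)
    have hb : b = 0 := by
      have : b ^ 3 = 0 := by rw [ha] at h1; linear_combination -h1
      exact pow_eq_zero_iff (three_ne_zero) |>.1 this
    have hc : c = 0 := by
      have : c ^ 3 = 0 := by rw [hb] at h2; linear_combination -h2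
      exact pow_eq_zero_iff (three_ne_zero) |>.1 this
    exact hq0 ⟨ha, hb, hc⟩

/-- three by three linear algebra: if `u`, `u'` are both orthogonal to `r`, `s` and the cross
product of `r` and `s` is nonzero, then `u` and `u'` are proportional. -/
theorem cross_aux {r s u u' : Fin 3 → K} (h1 : r ⬝ᵥ u = 0) (h2 : r ⬝ᵥ u' = 0)
    (h3 : s ⬝ᵥ u = 0) (h4 : s ⬝ᵥ u' = 0) {i j : Fin 3} (hrs : r i * s j - r j * s i ≠ 0)
    (k l : Fin 3) : u k * u' l = u l * u' k := by
  simp only [dotProduct, Fin.sum_univ_three] at h1 h2 h3 h4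
  have key : (r i * s j - r j * s i) * (u k * u' l - u l * u' k) = 0 := by
    fin_cases i <;> fin_cases j <;> fin_cases k <;> fin_cases l <;> simp <;> grind
  have := (mul_eq_zero.1 key).resolve_left hrs
  linear_combination this

/-- uniqueness of the third point up to scalars -/
theorem Rel.unique [CharZero K] {q v u u' : Fin 3 → K} (hq : fer q = 0) (hv : fer v = 0)
    (hq0 : q ≠ 0) (hv0 : v ≠ 0) (h : Rel q v u) (h' : Rel q v u') (k l : Fin 3) :
    u k * u' l = u l * u' k := by
  by_contra hne
  obtain ⟨h0, h1, h2⟩ := h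
  obtain ⟨h0', h1', h2'⟩ := h'
  set n0 : Fin 3 → K := ![q 0 * v 0, q 1 * v 1, q 2 * v 2] with hn0
  set n1 : Fin 3 → K := ![q 1 * v 2, q 2 * v 0, q 0 * v 1] with hn1
  set n2 : Fin 3 → K := ![q 2 * v 1, q 0 * v 2, q 1 * v 0] with hn2
  have a0 : n0 ⬝ᵥ u = 0 := by simp [dotProduct, Fin.sum_univ_three, hn0]; linear_combination h0
  have a1 : n1 ⬝ᵥ u = 0 := by simp [dotProduct, Fin.sum_univ_three, hn1]; linear_combination h1
  have a2 : n2 ⬝ᵥ u = 0 := by simp [dotProduct, Fin.sum_univ_three, hn2]; linear_combination h2
  have b0 : n0 ⬝ᵥ u' = 0 := by simp [dotProduct, Fin.sum_univ_three, hn0]; linear_combination h0'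
  have b1 : n1 ⬝ᵥ u' = 0 := by simp [dotProduct, Fin.sum_univ_three, hn1]; linear_combination h1'
  have b2 : n2 ⬝ᵥ u' = 0 := by simp [dotProduct, Fin.sum_univ_three, hn2]; linear_combination h2'
  have m01 : ∀ i j, n0 i * n1 j - n0 j * n1 i = 0 := by
    intro i j; by_contra hc; exact hne (cross_aux a0 b0 a1 b1 hc k l)
  have m12 : ∀ i j, n1 i * n2 j - n1 j * n2 i = 0 := by
    intro i j; by_contra hc; exact hne (cross_aux a1 b1 a2 b2 hc k l)
  refine complete hq hv hq0 hv0 ?_ ?_
  · have c01 := m12 1 2
    have c20 := m12 2 0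
    have c12 := m12 0 1
    simp [hn1, hn2] at c01 c20 c12
    funext i
    fin_cases i <;> simp [SS]
    · linear_combination c01
    · linear_combination c20
    · linear_combination c12
  · have c01 := m01 1 2
    have c20 := m01 2 0
    have c12 := m01 0 1
    simp [hn0, hn1] at c01 c20 c12
    funext i
    fin_cases i <;> simp [RR]
    · linear_combination -c01
    · linear_combination -c20
    · linear_combination -c12

/-- existence of the third point -/
theorem exists_third [CharZero K] {q v : Fin 3 → K} (hq : fer q = 0) (hv : fer v = 0)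
    (hq0 : q ≠ 0) (hv0 : v ≠ 0) : ∃ u : Fin 3 → K, u ≠ 0 ∧ fer u = 0 ∧ Rel q v u := by
  by_cases hS : SS q v = 0
  · have hR : RR q v ≠ 0 := fun hR => complete hq hv hq0 hv0 hS hR
    exact ⟨_, hR, fer_RR hq hv, rel_RR hq hv⟩
  · exact ⟨_, hS, fer_SS hq hv, rel_SS hq hv⟩

/-- vectors with vanishing two by two minors are proportional -/
theorem exists_smul_of_minors {u u' : Fin 3 → K} (hu : u ≠ 0)
    (h : ∀ k l, u k * u' l = u l * u' k) : ∃ c : K, u' = c • u := by
  obtain ⟨k, hk⟩ : ∃ k, u k ≠ 0 := by
    by_contra hc
    push Not at hc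
    exact hu (funext hc)
  refine ⟨u' k / u k, ?_⟩
  funext l
  simp only [Pi.smul_apply, smul_eq_mul]
  field_simp
  linear_combination h k l

/-- any solution of the relation lies on the cubic -/
theorem Rel.fer_eq_zero [CharZero K] {q v u : Fin 3 → K} (hq : fer q = 0) (hv : fer v = 0)
    (hq0 : q ≠ 0) (hv0 : v ≠ 0) (h : Rel q v u) : fer u = 0 := by
  obtain ⟨w, hw0, hw, hrel⟩ := exists_third hq hv hq0 hv0
  obtain ⟨c, rfl⟩ := exists_smul_of_minors hw0 (Rel.unique hq hv hq0 hv0 hrel h)
  simp only [fer, Pi.smul_apply, smul_eq_mul] at hw ⊢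
  linear_combination c ^ 3 * hw

end Pool.Agent.H638R3.IT
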