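import Mathlib
import Pool.Agent.H638R3.IT.FermatField

/-!
# Rank one projectors and the trivialisation of the bundle
-/

set_option autoImplicit false

namespace Pool.Agent.H638R3.IT

open Matrix

section ring

variable {R : Type*} [Ring R]

/-- the two idempotents have the same image -/
def Same (P Q : R) : Prop := P * Q = Q ∧ Q * P = P

theorem Same.symm {P Q : R} (h : Same P Q) : Same Q P := ⟨h.2, h.1⟩

def th1 (P0 w : R) : R := P0 + P0 * w * (1 - P0)

def th2 (P0 w : R) : R := (1 - th1 P0 w) * w + P0 * w * th1 P0 w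

def thi (P0 P m : R) : R := (P - P0) + (1 - P0) * m + P * m * P0

theorem same_th1 {P0 : R} (h : P0 * P0 = P0) (w : R) : Same P0 (th1 P0 w) := by
  constructor
  · have : P0 * th1 P0 w = P0 * P0 + P0 * P0 * w * (1 - P0) := by simp only [th1]; noncomm_ring
    rw [this, h]; rfl
  · have : th1 P0 w * P0 = P0 * P0 + P0 * w * (P0 - P0 * P0) := by simp only [th1]; noncomm_ring
    rw [this, h]; simp

theorem Same.idem_right {P0 P : R} (h : Same P0 P) : P * P = P := by
  obtain ⟨h1, h2⟩ := h
  calc P * P = P * (P0 * P) := by rw [h1]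
    _ = (P * P0) * P := by rw [mul_assoc]
    _ = P := by rw [h2, h1]

theorem Same.one_sub_mul {P0 P : R} (h : Same P0 P) : (1 - P0) * (1 - P) = 1 - P0 := by
  have : (1 - P0) * (1 - P) = 1 - P0 - P + P0 * P := by noncomm_ring
  rw [this, h.1]; abel

theorem lin_th2 {P0 : R} (h : P0 * P0 = P0) (w : R) :
    th1 P0 w * th2 P0 w * (1 - th1 P0 w) = 0 := by
  have hs := same_th1 h w
  have hi := hs.idem_right
  rw [th2]
  set P := th1 P0 w with hP
  have e : P * ((1 - P) * w + P0 * w * P) * (1 - P) =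
      (P - P * P) * w * (1 - P) + P * P0 * w * (P - P * P) := by noncomm_ring
  rw [e, hi]; simp

theorem thi_th {P0 : R} (h : P0 * P0 = P0) (w : R) :
    thi P0 (th1 P0 w) (th2 P0 w) = w := by
  have hs := same_th1 h w
  have hi := hs.idem_right
  have ho := hs.one_sub_mul
  rw [thi, th2]
  set P := th1 P0 w with hP
  have e1 : (1 - P0) * ((1 - P) * w + P0 * w * P) =
      ((1 - P0) * (1 - P)) * w + (P0 - P0 * P0) * w * P := by noncomm_ring
  have e2 : P * ((1 - P) * w + P0 * w * P) * P0 =
      (P - P * P) * w * P0 + (P * P0) * w * (P * P0) := by noncomm_ring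
  have e3 : P = P0 + P0 * w * (1 - P0) := rfl
  rw [e1, e2, ho, hi, hs.2, h]
  have e4 : P - P0 = P0 * w * (1 - P0) := by rw [e3]; abel
  rw [e4]
  noncomm_ring

theorem th1_thi {P0 P m : R} (h : P0 * P0 = P0) (hs : Same P0 P) :
    th1 P0 (thi P0 P m) = P := by
  rw [th1, thi]
  have e1 : P0 * (P - P0 + (1 - P0) * m + P * m * P0) * (1 - P0) =
      (P0 * P - P0 * P0) + (P0 - P0 * P0) * m * (1 - P0) - (P0 * (P * P0) - P0 * P0 * P0) +
       P0 * P * m * (P0 - P0 * P0) := by noncomm_ring
  rw [e1, hs.1, hs.2, h]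
  simp [h]

theorem th2_thi {P0 P m : R} (h : P0 * P0 = P0) (hs : Same P0 P) (hm : P * m * (1 - P) = 0) :
    th2 P0 (thi P0 P m) = m := by
  rw [th2, th1_thi h hs]
  have hi := hs.idem_right
  have ho := hs.symm.one_sub_mul
  have e1 : (1 - P) * thi P0 P m =
      (P - P * P) - (P0 - P * P0) + ((1 - P) * (1 - P0)) * m + (P - P * P) * m * P0 := by
    rw [thi]; noncomm_ring
  have e2 : P0 * thi P0 P m * P =
      (P0 * P - P0 * P0) * P + (P0 - P0 * P0) * m * P + P0 * P * m * (P0 * P) := by
    rw [thi]; noncomm_ring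
  rw [e1, e2, ho, hi, hs.2, hs.1, h]
  have e3 : (P - P0) * P = P * P - P0 * P := by noncomm_ring
  have e4 : P * m * P = P * m - P * m * (1 - P) := by noncomm_ring
  rw [e3, hi, hs.1, e4, hm]
  noncomm_ring

end ring

abbrev Mat (B : Type*) := Matrix (Fin 3) (Fin 3) B

section comm

variable {B C : Type*} [CommRing B] [CommRing C]

/-- rank one projector onto a point of the cubic -/
structure IsJ (P : Mat B) : Prop where
  minor : ∀ i j k l, P i j * P k l = P i l * P k j
  tr : P 0 0 + P 1 1 + P 2 2 = 1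
  fer0 : ∀ j, fer (fun i => P i j) = 0

theorem fer_map (f : B →+* C) (v : Fin 3 → B) : f (fer v) = fer (fun i => f (v i)) := by
  simp [fer]

theorem IsJ.map {P : Mat B} (h : IsJ P) (f : B →+* C) : IsJ (P.map f) where
  minor i j k l := by simp only [Matrix.map_apply, ← map_mul, h.minor i j k l]
  tr := by simp only [Matrix.map_apply, ← map_add, h.tr, map_one]
  fer0 j := by
    have := h.fer0 j
    simp only [Matrix.map_apply]
    rw [← fer_map f (fun i => P i j), this, map_zero]

theorem IsJ.idem {P : Mat B} (h : IsJ P) : P * P = P := by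
  ext i k
  rw [Matrix.mul_apply, Fin.sum_univ_three]
  rw [h.minor i 0 0 k, h.minor i 1 1 k, h.minor i 2 2 k]
  linear_combination P i k * h.tr

theorem isJ_vec {v z : Fin 3 → B} (hv : fer v = 0) (hz : z ⬝ᵥ v = 1) : IsJ (vecMulVec v z) where
  minor i j k l := by simp only [vecMulVec_apply]; ring
  tr := by
    simp only [vecMulVec_apply]
    simp only [dotProduct, Fin.sum_univ_three] at hz
    linear_combination hz
  fer0 j := by
    simp only [vecMulVec_apply, fer] at hv ⊢
    linear_combination z j ^ 3 * hv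

end comm

section field

variable {K : Type*} [Field K]

theorem IsJ.exists_vec {P : Mat K} (h : IsJ P) :
    ∃ v z : Fin 3 → K, v ≠ 0 ∧ fer v = 0 ∧ z ⬝ᵥ v = 1 ∧ P = vecMulVec v z := by
  obtain ⟨i, hi⟩ : ∃ i, P i i ≠ 0 := by
    by_contra hc
    push Not at hc
    have := h.tr
    rw [hc 0, hc 1, hc 2] at this
    simp at this
  refine ⟨fun k => P k i, fun k => P i k / P i i, ?_, h.fer0 i, ?_, ?_⟩
  · intro hc
    exact hi (congrFun hc i)
  · have := h.idem
    have h2 : (P * P) i i = P i i := by rw [this]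
    rw [Matrix.mul_apply, Fin.sum_univ_three] at h2
    simp only [dotProduct, Fin.sum_univ_three]
    field_simp
    linear_combination h2
  · ext k l
    rw [vecMulVec_apply]
    field_simp
    linear_combination h.minor i i k l

theorem vec_ne_zero {v z : Fin 3 → K} (hz : z ⬝ᵥ v = 1) : v ≠ 0 := by
  rintro rfl
  simp at hz

/-- an idempotent with the same image as a rank one projector -/
theorem Same.exists_vec {v z : Fin 3 → K} (hz : z ⬝ᵥ v = 1) {Q : Mat K}
    (h : Same (vecMulVec v z) Q) : ∃ z' : Fin 3 → K, z' ⬝ᵥ v = 1 ∧ Q = vecMulVec v z' := by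
  refine ⟨z ᵥ* Q, ?_, ?_⟩
  · have h2 := congrFun (congrArg (fun M => M *ᵥ v) h.2)
    have e1 : (vecMulVec v z) *ᵥ v = v := by
      funext i
      simp only [mulVec, vecMulVec_apply, dotProduct, Fin.sum_univ_three] at hz ⊢
      linear_combination v i * hz
    have e2 : Q *ᵥ v = v := by
      have := congrArg (fun M => M *ᵥ v) h.2
      simp only [← mulVec_mulVec, e1] at this
      exact this
    rw [← dotProduct_mulVec, e2, hz]
  · have h1 := h.1
    rw [vecMulVec_mul] at h1
    exact h1.symm

theorem same_of_smul {v v' z z' : Fin 3 → K} (hz : z ⬝ᵥ v = 1) (hz' : z' ⬝ᵥ v' = 1) {c : K}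
    (h : v' = c • v) : Same (vecMulVec v z) (vecMulVec v' z') := by
  subst h
  simp only [dotProduct, Fin.sum_univ_three, Pi.smul_apply, smul_eq_mul] at hz hz'
  constructor
  · ext i j
    simp only [Matrix.mul_apply, vecMulVec_apply, Fin.sum_univ_three, Pi.smul_apply, smul_eq_mul]
    linear_combination c * v i * z' j * hz
  · ext i j
    simp only [Matrix.mul_apply, vecMulVec_apply, Fin.sum_univ_three, Pi.smul_apply, smul_eq_mul]
    linear_combination v i * z j * hz'

theorem IsJ.of_same {P0 P : Mat K} (h : IsJ P0) (hs : Same P0 P) : IsJ P := by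
  obtain ⟨v, z, -, hv, hz, rfl⟩ := h.exists_vec
  obtain ⟨z', hz', rfl⟩ := hs.exists_vec hz
  exact isJ_vec hv hz'

end field

end Pool.Agent.H638R3.IT
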