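import Mathlib
import Pool.Agent.H638R3.IT.Fermat

/-!
# The parameter ring is a domain
-/

set_option autoImplicit false

namespace Pool.Agent.H638R3.IT

/-- index type of the parameters -/
abbrev T := Fin 2 ⊕ Fin 3 ⊕ (Fin 3 × Fin 3) ⊕ (Fin 3 × Fin 3)

section cubic

open Polynomial

variable (K : Type*) [Field K]

noncomputable def aa : MvPolynomial T K :=
  -((MvPolynomial.X (Sum.inl 0)) ^ 3 + (MvPolynomial.X (Sum.inl 1)) ^ 3)

theorem aa_not_cube [CharZero K] (b : MvPolynomial T K) : b ^ 3 ≠ aa K := by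
  intro h
  let f : MvPolynomial T K →ₐ[K] K[X] :=
    MvPolynomial.aeval (Sum.elim ![X, 1] (fun _ => 0))
  have h1 : (f b) ^ 3 = -(X ^ 3 + 1) := by
    rw [← map_pow, h]
    simp [f, aa]
  have h2 : (X : K[X]) ^ 3 + 1 ^ 3 = (- f b) ^ 3 := by
    linear_combination h1
  have hne : (X : K[X]) ^ 3 + 1 ≠ 0 := by
    have : (X ^ 3 + C (1:K)).Monic := monic_X_pow_add_C 1 three_ne_zero
    have := this.ne_zero
    simpa using this
  have hfb : - f b ≠ 0 := by
    intro h0
    rw [h0] at h2
    apply hne
    linear_combination h2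
  obtain ⟨d, a', b', c', ⟨e1, e2, -⟩, u1, u2, -⟩ :=
    fermatLastTheoremWith'_polynomial (k := K) (n := 3) le_rfl (by norm_num)
      X 1 (- f b) X_ne_zero one_ne_zero hfb h2
  have hd : IsUnit d := isUnit_of_mul_isUnit_right (by rw [← e2]; exact isUnit_one)
  exact not_isUnit_X (e1 ▸ u1.mul hd)

noncomputable def pol : (MvPolynomial T K)[X] := X ^ 3 - C (aa K)

theorem pol_monic : (pol K).Monic := monic_X_pow_sub_C _ three_ne_zero

theorem pol_irreducible [CharZero K] : Irreducible (pol K) := by
  rw [(pol_monic K).irreducible_iff_irreducible_map_fraction_map (K := FractionRing (MvPolynomial T K))]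
  have : (pol K).map (algebraMap (MvPolynomial T K) (FractionRing (MvPolynomial T K))) =
      X ^ 3 - C (algebraMap _ _ (aa K)) := by simp [pol]
  rw [this, X_pow_sub_C_irreducible_iff_of_prime Nat.prime_three]
  intro b hb
  obtain ⟨y, rfl⟩ := IsIntegrallyClosed.exists_algebraMap_eq_of_isIntegral_pow
    (R := MvPolynomial T K) (x := b) (n := 3) (by norm_num) (by rw [hb]; exact isIntegral_algebraMap)
  rw [← map_pow] at hb
  exact aa_not_cube K y (IsFractionRing.injective (MvPolynomial T K) _ hb)

/-- the coordinate ring of the cone times an affine space -/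
abbrev DD := AdjoinRoot (pol K)

instance [CharZero K] : IsDomain (DD K) := AdjoinRoot.isDomain_of_prime (pol_irreducible K).prime

/-- the generic vector on the cone -/
noncomputable def gv : Fin 3 → DD K :=
  ![AdjoinRoot.root (pol K), AdjoinRoot.of (pol K) (MvPolynomial.X (Sum.inl 0)),
    AdjoinRoot.of (pol K) (MvPolynomial.X (Sum.inl 1))]

noncomputable def gz : Fin 3 → DD K :=
  fun i => AdjoinRoot.of (pol K) (MvPolynomial.X (Sum.inr (Sum.inl i)))

noncomputable def gb : Matrix (Fin 3) (Fin 3) (DD K) :=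
  Matrix.of fun i j => AdjoinRoot.of (pol K) (MvPolynomial.X (Sum.inr (Sum.inr (Sum.inl (i, j)))))

noncomputable def gw : Matrix (Fin 3) (Fin 3) (DD K) :=
  Matrix.of fun i j => AdjoinRoot.of (pol K) (MvPolynomial.X (Sum.inr (Sum.inr (Sum.inr (i, j)))))

noncomputable def gs : DD K := gz K 0 * gv K 0 + gz K 1 * gv K 1 + gz K 2 * gv K 2

theorem fer_gv : fer (gv K) = 0 := by
  have h : (AdjoinRoot.mk (pol K)) (X ^ 3 - C (aa K)) = 0 := AdjoinRoot.mk_self
  rw [map_sub, map_pow, AdjoinRoot.mk_X, AdjoinRoot.mk_C, aa, map_neg, map_add, map_pow,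
    map_pow] at h
  simp only [fer, gv]
  simp only [Matrix.cons_val_zero, Matrix.cons_val_one, Matrix.cons_val]
  linear_combination h

variable {K}

/-- a parameter point -/
noncomputable def par (v z : Fin 3 → K) (b w : Matrix (Fin 3) (Fin 3) K) (hv : fer v = 0) :
    DD K →ₐ[K] K :=
  AdjoinRoot.liftAlgHom (pol K)
    (MvPolynomial.aeval (Sum.elim ![v 1, v 2] (Sum.elim z (Sum.elim (fun ij => b ij.1 ij.2)
      (fun ij => w ij.1 ij.2))))) (v 0) (by
        simp only [fer] at hv
        rw [pol, eval₂_sub, eval₂_pow, eval₂_X, eval₂_C]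
        simp [aa]
        linear_combination hv)

theorem par_gv (v z : Fin 3 → K) (b w : Matrix (Fin 3) (Fin 3) K) (hv : fer v = 0) (i : Fin 3) :
    par v z b w hv (gv K i) = v i := by
  fin_cases i
  · simp [par, gv]
  · simp [par, gv]
  · simp [par, gv]

theorem par_gz (v z : Fin 3 → K) (b w : Matrix (Fin 3) (Fin 3) K) (hv : fer v = 0) (i : Fin 3) :
    par v z b w hv (gz K i) = z i := by
  simp [par, gz]

theorem par_gb (v z : Fin 3 → K) (b w : Matrix (Fin 3) (Fin 3) K) (hv : fer v = 0) (i j : Fin 3) :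
    par v z b w hv (gb K i j) = b i j := by
  simp [par, gb]

theorem par_gw (v z : Fin 3 → K) (b w : Matrix (Fin 3) (Fin 3) K) (hv : fer v = 0) (i j : Fin 3) :
    par v z b w hv (gw K i j) = w i j := by
  simp [par, gw]

theorem par_gs (v z : Fin 3 → K) (b w : Matrix (Fin 3) (Fin 3) K) (hv : fer v = 0) :
    par v z b w hv (gs K) = z 0 * v 0 + z 1 * v 1 + z 2 * v 2 := by
  simp only [gs, map_add, map_mul, par_gv, par_gz]

variable (K)

theorem gs_ne_zero : gs K ≠ 0 := by
  intro h
  have hv : fer (![1, -1, 0] : Fin 3 → K) = 0 := by simp [fer]; norm_num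
  have := par_gs (![1, -1, 0] : Fin 3 → K) ![1, 0, 0] 0 0 hv
  rw [h, map_zero] at this
  simp at this

/-- the localised parameter ring -/
abbrev Ds := Localization.Away (gs K)

instance [CharZero K] : IsDomain (Ds K) :=
  IsLocalization.isDomain_localization
    (powers_le_nonZeroDivisors_of_noZeroDivisors (gs_ne_zero K))

instance : Algebra.FiniteType K (Ds K) := inferInstance

end cubic

section density

open MvPolynomial

variable {K : Type*} [Field K]

/-- points are dense in a reduced finitely generated algebra over an algebraically closed field -/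
theorem eq_zero_of_points [IsAlgClosed K] {B : Type*} [CommRing B] [Algebra K B]
    [Algebra.FiniteType K B] [IsReduced B] (b : B) (h : ∀ χ : B →ₐ[K] K, χ b = 0) : b = 0 := by
  obtain ⟨n, f, hf⟩ := (Algebra.FiniteType.iff_quotient_mvPolynomial'' (R := K) (S := B)).1 inferInstance
  obtain ⟨p, rfl⟩ := hf b
  have hrad : (RingHom.ker f).IsRadical := by
    intro x hx
    obtain ⟨m, hm⟩ := hx
    rw [RingHom.mem_ker] at hm ⊢
    rw [map_pow] at hm
    exact eq_zero_of_pow_eq_zero hm
  have h1 : p ∈ (RingHom.ker f : Ideal (MvPolynomial (Fin n) K)) := by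
    rw [← hrad.radical, ← vanishingIdeal_zeroLocus_eq_radical (K := K)]
    rw [mem_vanishingIdeal_iff]
    intro x hx
    rw [mem_zeroLocus_iff] at hx
    let χ : B →ₐ[K] K :=
      (Ideal.Quotient.liftₐ (RingHom.ker f) (aeval x) (fun a ha => hx a ha)).comp
        ((Ideal.quotientKerAlgEquivOfSurjective hf).symm : B →ₐ[K] _)
    have h2 : χ (f p) = aeval x p := by
      have : (Ideal.quotientKerAlgEquivOfSurjective hf).symm (f p) = Ideal.Quotient.mk _ p := by
        rw [AlgEquiv.symm_apply_eq]
        rfl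
      simp only [χ, AlgHom.comp_apply]
      erw [this]
      rfl
    rw [← h2]
    exact h χ
  exact h1

end density

end Pool.Agent.H638R3.IT
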