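import Mathlib
import Pool.Agent.H638R3.IT.Bundle

/-!
# Lifting the involutions of the cubic to rank one projectors
-/

set_option autoImplicit false

namespace Pool.Agent.H638R3.IT

open Matrix MvPolynomial

section comm

variable {B C : Type*} [CommRing B] [CommRing C]

def cand (s : Bool) (q v : Fin 3 → B) : Fin 3 → B := if s then SS q v else RR q v

theorem cand_smul (s : Bool) (q v : Fin 3 → B) (c : B) :
    cand s q (c • v) = c ^ 2 • cand s q v := by
  cases s
  · funext i
    fin_cases i <;> simp [cand, RR] <;> ring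
  · funext i
    fin_cases i <;> simp [cand, SS] <;> ring

theorem cand_map (f : B →+* C) (s : Bool) (q v : Fin 3 → B) (i : Fin 3) :
    f (cand s q v i) = cand s (fun i => f (q i)) (fun i => f (v i)) i := by
  cases s
  · fin_cases i <;> simp [cand, RR]
  · fin_cases i <;> simp [cand, SS]

theorem rel_cand (s : Bool) {q v : Fin 3 → B} (hq : fer q = 0) (hv : fer v = 0) :
    Rel q v (cand s q v) := by
  cases s
  · exact rel_RR hq hv
  · exact rel_SS hq hv

end comm

variable {K : Type*} [Field K]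

/-- the entries of a matrix as a vector indexed by pairs -/
def unM (P : Mat K) : Fin 3 × Fin 3 → K := fun ij => P ij.1 ij.2

noncomputable def mm (q : Fin 3 → K) (t : Bool × Fin 3 × Fin 3) : MvPolynomial (Fin 3 × Fin 3) K :=
  cand t.1 (fun i => C (q i)) (fun i => X (i, t.2.1)) t.2.2

theorem eval_mm (q : Fin 3 → K) (t : Bool × Fin 3 × Fin 3) (P : Mat K) :
    eval (unM P) (mm q t) = cand t.1 q (fun i => P i t.2.1) t.2.2 := by
  rw [mm, cand_map]
  simp [unM]

theorem exists_coeff [IsAlgClosed K] [CharZero K] {q : Fin 3 → K} (hq : fer q = 0) (hq0 : q ≠ 0) :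
    ∃ c : Bool × Fin 3 × Fin 3 → MvPolynomial (Fin 3 × Fin 3) K, ∀ P : Mat K, IsJ P →
      ∑ t, eval (unM P) (c t) * cand t.1 q (fun i => P i t.2.1) t.2.2 = 1 := by
  classical
  set V : Set (Fin 3 × Fin 3 → K) := {x | IsJ (Matrix.of fun i j => x (i, j))} with hV
  set I : Ideal (MvPolynomial (Fin 3 × Fin 3) K) :=
    vanishingIdeal K V ⊔ Ideal.span (Set.range (mm q)) with hI
  have hz : zeroLocus K I = ∅ := by
    rw [Set.eq_empty_iff_forall_notMem]
    intro x hx
    rw [mem_zeroLocus_iff] at hx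
    have hx1 : ∀ p : MvPolynomial (Fin 3 × Fin 3) K, (∀ y ∈ V, aeval y p = 0) →
        aeval x p = 0 := fun p hp =>
      hx p ((le_sup_left : vanishingIdeal K V ≤ I) (mem_vanishingIdeal_iff.2 hp))
    have hJ : IsJ (Matrix.of fun i j => x (i, j)) := by
      refine ⟨?_, ?_, ?_⟩
      · intro i j k l
        have := hx1 (X (i, j) * X (k, l) - X (i, l) * X (k, j)) (by
          intro y hy
          have := hy.minor i j k l
          simp only [Matrix.of_apply] at this
          simp [this])
        simp only [map_sub, map_mul, aeval_X] at this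
        simp only [Matrix.of_apply]
        linear_combination this
      · have := hx1 (X (0, 0) + X (1, 1) + X (2, 2) - 1) (by
          intro y hy
          have := hy.tr
          simp only [Matrix.of_apply] at this
          simp [this])
        simp only [map_sub, map_add, aeval_X, map_one] at this
        simp only [Matrix.of_apply]
        linear_combination this
      · intro j
        have := hx1 (X (0, j) ^ 3 + X (1, j) ^ 3 + X (2, j) ^ 3) (by
          intro y hy
          have := hy.fer0 j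
          simp only [Matrix.of_apply, fer] at this
          simp [this])
        simp only [map_add, map_pow, aeval_X] at this
        simp only [Matrix.of_apply, fer]
        linear_combination this
    set P : Mat K := Matrix.of fun i j => x (i, j) with hP
    have hxP : x = unM P := by
      funext ij
      rfl
    have hx2 : ∀ t : Bool × Fin 3 × Fin 3, cand t.1 q (fun i => P i t.2.1) t.2.2 = 0 := by
      intro t
      have := hx (mm q t) ((le_sup_right : _ ≤ I) (Ideal.subset_span ⟨t, rfl⟩))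
      rw [← eval_mm, ← hxP]
      rw [← this, MvPolynomial.aeval_def, MvPolynomial.eval₂_eq_eval_map]
      simp
    obtain ⟨v, z, hv0, hv, hzv, hPv⟩ := hJ.exists_vec
    obtain ⟨j, hj⟩ : ∃ j, z j ≠ 0 := by
      by_contra hc
      push Not at hc
      have : z = 0 := funext hc
      rw [this] at hzv
      simp at hzv
    have hc : ∀ s, cand s q v = 0 := by
      intro s
      funext k
      have h1 := hx2 (s, j, k)
      have h2 : (fun i => P i j) = z j • v := by
        funext i
        rw [hPv, vecMulVec_apply]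
        simp [mul_comm]
      simp only at h1
      rw [h2, cand_smul] at h1
      simp only [Pi.smul_apply, smul_eq_mul] at h1
      exact (mul_eq_zero.1 h1).resolve_left (pow_ne_zero _ hj)
    exact complete hq hv hq0 hv0 (by simpa [cand] using hc true) (by simpa [cand] using hc false)
  have htop : I = ⊤ := by
    have h1 := vanishingIdeal_zeroLocus_eq_radical (K := K) I
    rw [hz, vanishingIdeal_empty] at h1
    exact Ideal.radical_eq_top.1 h1.symm
  have h1 : (1 : MvPolynomial (Fin 3 × Fin 3) K) ∈ I := by rw [htop]; trivial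
  rw [hI, Submodule.mem_sup] at h1
  obtain ⟨y, hy, w, hw, hyw⟩ := h1
  rw [Ideal.mem_span_range_iff_exists_fun] at hw
  obtain ⟨c, hc⟩ := hw
  refine ⟨c, fun P hP => ?_⟩
  have h2 := congrArg (eval (unM P)) hyw
  rw [map_add, map_one, ← hc, map_sum] at h2
  have hy2 : eval (unM P) y = 0 := by
    have := (mem_vanishingIdeal_iff.1 hy) (unM P) (by
      have : (Matrix.of fun i j => unM P (i, j)) = P := by ext i j; rfl
      show IsJ (Matrix.of fun i j => unM P (i, j))
      rw [this]; exact hP)
    rw [← this, MvPolynomial.aeval_def, MvPolynomial.eval₂_eq_eval_map]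
    simp
  rw [hy2, zero_add] at h2
  rw [← h2]
  refine Finset.sum_congr rfl fun t _ => ?_
  rw [map_mul, eval_mm]

/-- the lift of the involution of the cubic attached to `q` -/
noncomputable def lift (q : Fin 3 → K) (c : Bool × Fin 3 × Fin 3 → MvPolynomial (Fin 3 × Fin 3) K) (P : Mat K) :
    Mat K :=
  Matrix.of fun i k => ∑ s : Bool, ∑ j : Fin 3,
    eval (unM P) (c (s, j, k)) * cand s q (fun i => P i j) i

/-- normalised coefficients -/
def Good (q : Fin 3 → K) (c : Bool × Fin 3 × Fin 3 → MvPolynomial (Fin 3 × Fin 3) K) : Prop :=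
  ∀ P : Mat K, IsJ P →
      ∑ t, eval (unM P) (c t) * cand t.1 q (fun i => P i t.2.1) t.2.2 = 1

theorem lift_spec [CharZero K] {q : Fin 3 → K} (hq : fer q = 0) (hq0 : q ≠ 0)
    {c : Bool × Fin 3 × Fin 3 → MvPolynomial (Fin 3 × Fin 3) K} (hc : Good q c)
    {v z : Fin 3 → K} (hv : fer v = 0) (hz : z ⬝ᵥ v = 1) :
    ∃ u z' : Fin 3 → K, fer u = 0 ∧ z' ⬝ᵥ u = 1 ∧ Rel q v u ∧
      lift q c (vecMulVec v z) = vecMulVec u z' := by
  have hv0 : v ≠ 0 := vec_ne_zero hz
  obtain ⟨u, hu0, hu, hrel⟩ := exists_third hq hv hq0 hv0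
  set P : Mat K := vecMulVec v z with hP
  have hJ : IsJ P := isJ_vec hv hz
  have h1 : ∀ s, ∃ a : K, cand s q v = a • u := fun s =>
    exists_smul_of_minors hu0 (Rel.unique hq hv hq0 hv0 hrel (rel_cand s hq hv))
  choose a ha using h1
  have h2 : ∀ j, (fun i => P i j) = z j • v := by
    intro j
    funext i
    rw [hP, vecMulVec_apply]
    simp [mul_comm]
  refine ⟨u, fun k => ∑ s : Bool, ∑ j : Fin 3, eval (unM P) (c (s, j, k)) * (z j ^ 2 * a s),
    hu, ?_, hrel, ?_⟩
  · rw [← hc P hJ]
    simp only [dotProduct]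
    rw [Fintype.sum_prod_type]
    simp_rw [Fintype.sum_prod_type, h2, cand_smul, ha]
    simp only [Pi.smul_apply, smul_eq_mul, Finset.sum_mul]
    rw [Finset.sum_comm]
    refine Finset.sum_congr rfl fun s _ => ?_
    rw [Finset.sum_comm]
    refine Finset.sum_congr rfl fun j _ => ?_
    refine Finset.sum_congr rfl fun k _ => ?_
    ring
  · ext i k
    rw [lift, Matrix.of_apply, vecMulVec_apply]
    simp_rw [h2, cand_smul, ha]
    simp only [Pi.smul_apply, smul_eq_mul, Finset.mul_sum]
    refine Finset.sum_congr rfl fun s _ => ?_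
    refine Finset.sum_congr rfl fun j _ => ?_
    ring

theorem lift_isJ [CharZero K] {q : Fin 3 → K} (hq : fer q = 0) (hq0 : q ≠ 0)
    {c : Bool × Fin 3 × Fin 3 → MvPolynomial (Fin 3 × Fin 3) K} (hc : Good q c)
    {P : Mat K} (hP : IsJ P) : IsJ (lift q c P) := by
  obtain ⟨v, z, -, hv, hz, rfl⟩ := hP.exists_vec
  obtain ⟨u, z', hu, hz', -, h⟩ := lift_spec hq hq0 hc hv hz
  rw [h]
  exact isJ_vec hu hz'

theorem lift_lift [CharZero K] {q : Fin 3 → K} (hq : fer q = 0) (hq0 : q ≠ 0)
    {c : Bool × Fin 3 × Fin 3 → MvPolynomial (Fin 3 × Fin 3) K} (hc : Good q c)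
    {P Q : Mat K} (hP : IsJ P) (hs : Same (lift q c P) Q) : Same (lift q c Q) P := by
  obtain ⟨v, z, hv0, hv, hz, rfl⟩ := hP.exists_vec
  obtain ⟨u, z', hu, hz', hrel, h⟩ := lift_spec hq hq0 hc hv hz
  rw [h] at hs
  obtain ⟨z2, hz2, rfl⟩ := hs.exists_vec hz'
  obtain ⟨u2, z3, hu2, hz3, hrel2, h2⟩ := lift_spec hq hq0 hc hu hz2
  rw [h2]
  have hu0 : u ≠ 0 := vec_ne_zero hz'
  have hu20 : u2 ≠ 0 := vec_ne_zero hz3
  obtain ⟨a, ha⟩ := exists_smul_of_minors hu20 (Rel.unique hq hu hq0 hu0 hrel2 hrel.swap)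
  exact same_of_smul hz3 hz ha

/-- any two points of the cubic are exchanged by one of the involutions -/
theorem exists_q [IsAlgClosed K] [CharZero K] {P Q : Mat K} (hP : IsJ P) (hQ : IsJ Q) :
    ∃ (q : Fin 3 → K) (c : Bool × Fin 3 × Fin 3 → MvPolynomial (Fin 3 × Fin 3) K),
      fer q = 0 ∧ q ≠ 0 ∧ Good q c ∧ Same (lift q c P) Q := by
  obtain ⟨v, z, hv0, hv, hz, rfl⟩ := hP.exists_vec
  obtain ⟨v', z', hv'0, hv', hz', rfl⟩ := hQ.exists_vec
  obtain ⟨q, hq0, hq, hrel⟩ := exists_third hv hv' hv0 hv'0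
  obtain ⟨c, hc⟩ := exists_coeff hq hq0
  refine ⟨q, c, hq, hq0, hc, ?_⟩
  obtain ⟨u, z2, hu, hz2, hrel2, h2⟩ := lift_spec hq hq0 hc hv hz
  rw [h2]
  have hu0 : u ≠ 0 := vec_ne_zero hz2
  obtain ⟨a, ha⟩ := exists_smul_of_minors hu0 (Rel.unique hq hv hq0 hv0 hrel2 hrel.rot)
  exact same_of_smul hz2 hz' ha

end Pool.Agent.H638R3.IT
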