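import Mathlib
import Pool.Agent.H638R3.IT.Lift

/-!
# The variety as a set of points with its ring of regular functions
-/

set_option autoImplicit false

namespace Pool.Agent.H638R3.IT

open Matrix MvPolynomial

/-- the defining conditions for the pair `(P, m)` -/
structure IsPt {B : Type*} [CommRing B] (P m : Mat B) : Prop where
  J : IsJ P
  lin : P * m * (1 - P) = 0

/-- the point set -/
@[ext]
structure Pt (K : Type*) [Field K] where
  P : Mat K
  m : Mat K
  w : Mat K
  h : IsPt P m

variable {K : Type*} [Field K]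

/-- the three matrices as one family -/
def Pt.mat (x : Pt K) : Fin 3 → Mat K := ![x.P, x.m, x.w]

/-- the coordinate functions -/
def coo (b : Fin 3 × Fin 3 × Fin 3) (x : Pt K) : K := x.mat b.1 b.2.1 b.2.2

variable (K) in
/-- the algebra of regular functions -/
def OO : Subalgebra K (Pt K → K) := Algebra.adjoin K (Set.range coo)

theorem coo_mem (b : Fin 3 × Fin 3 × Fin 3) : (coo b : Pt K → K) ∈ OO K :=
  Algebra.subset_adjoin ⟨b, rfl⟩

/-- a matrix valued function with regular entries -/
def Reg {X : Type*} (O : Subalgebra K (X → K)) (F : X → Mat K) : Prop :=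
  ∀ i j, (fun x => F x i j) ∈ O

section reg

variable {X : Type*} {O : Subalgebra K (X → K)}

theorem Reg.add {F G : X → Mat K} (hF : Reg O F) (hG : Reg O G) : Reg O (fun x => F x + G x) :=
  fun i j => O.add_mem (hF i j) (hG i j)

theorem Reg.sub {F G : X → Mat K} (hF : Reg O F) (hG : Reg O G) : Reg O (fun x => F x - G x) :=
  fun i j => O.sub_mem (hF i j) (hG i j)

theorem Reg.mul {F G : X → Mat K} (hF : Reg O F) (hG : Reg O G) : Reg O (fun x => F x * G x) := by
  intro i j
  have : (fun x => (F x * G x) i j) = ∑ k, (fun x => F x i k) * (fun x => G x k j) := by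
    funext x
    simp [Matrix.mul_apply]
  rw [this]
  exact O.sum_mem fun k _ => O.mul_mem (hF i k) (hG k j)

theorem Reg.const (M : Mat K) : Reg O (fun _ => M) := fun i j => O.algebraMap_mem (M i j)

theorem Reg.one : Reg O (fun _ => (1 : Mat K)) := Reg.const 1

/-- polynomials in regular functions are regular -/
theorem poly_mem {σ : Type*} (p : MvPolynomial σ K) {F : X → σ → K}
    (hF : ∀ s, (fun x => F x s) ∈ O) : (fun x => eval (F x) p) ∈ O := by
  induction p using MvPolynomial.induction_on with
  | C a =>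
    have : (fun x => eval (F x) (MvPolynomial.C a)) = algebraMap K (X → K) a := by
      funext x; simp
    rw [this]; exact O.algebraMap_mem a
  | add p q hp hq =>
    have : (fun x => eval (F x) (p + q)) = (fun x => eval (F x) p) + fun x => eval (F x) q := by
      funext x; simp
    rw [this]; exact O.add_mem hp hq
  | mul_X p s hp =>
    have : (fun x => eval (F x) (p * MvPolynomial.X s)) = (fun x => eval (F x) p) * fun x => F x s := by
      funext x; simp
    rw [this]; exact O.mul_mem hp (hF s)

theorem Reg.lift {F : X → Mat K} (hF : Reg O F) (q : Fin 3 → K)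
    (c : Bool × Fin 3 × Fin 3 → MvPolynomial (Fin 3 × Fin 3) K) :
    Reg O (fun x => lift q c (F x)) := by
  intro i k
  have : (fun x => IT.lift q c (F x) i k) = ∑ s : Bool, ∑ j : Fin 3,
      (fun x => eval (unM (F x)) (c (s, j, k))) * (fun x => eval (unM (F x)) (mm q (s, j, i))) := by
    funext x
    simp only [IT.lift, Matrix.of_apply, Finset.sum_apply, Pi.mul_apply]
    refine Finset.sum_congr rfl fun s _ => Finset.sum_congr rfl fun j _ => ?_
    rw [eval_mm]
  rw [this]
  refine O.sum_mem fun s _ => O.sum_mem fun j _ => O.mul_mem ?_ ?_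
  · exact poly_mem _ fun s => hF s.1 s.2
  · exact poly_mem _ fun s => hF s.1 s.2

end reg

theorem reg_P : Reg (OO K) (fun x => x.P) := fun i j => coo_mem (0, i, j)
theorem reg_m : Reg (OO K) (fun x => x.m) := fun i j => coo_mem (1, i, j)
theorem reg_w : Reg (OO K) (fun x => x.w) := fun i j => coo_mem (2, i, j)

/-- a regular self map of the variety -/
structure RegMap (φ : Pt K → Pt K) : Prop where
  P : Reg (OO K) (fun x => (φ x).P)
  m : Reg (OO K) (fun x => (φ x).m)
  w : Reg (OO K) (fun x => (φ x).w)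

theorem RegMap.comp_mem {φ : Pt K → Pt K} (h : RegMap φ) {f : Pt K → K} (hf : f ∈ OO K) :
    f ∘ φ ∈ OO K := by
  induction hf using Algebra.adjoin_induction with
  | mem x hx =>
    obtain ⟨⟨b, i, j⟩, rfl⟩ := hx
    fin_cases b
    · exact h.P i j
    · exact h.m i j
    · exact h.w i j
  | algebraMap r => exact (OO K).algebraMap_mem r
  | add x y _ _ hx hy => exact (OO K).add_mem hx hy
  | mul x y _ _ hx hy => exact (OO K).mul_mem hx hy

/-- translation in the last factor -/
def trans (u : Mat K) (x : Pt K) : Pt K := ⟨x.P, x.m, x.w + u, x.h⟩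

theorem trans_reg (u : Mat K) : RegMap (trans u) where
  P := reg_P
  m := reg_m
  w := reg_w.add (Reg.const u)

theorem trans_trans (u : Mat K) (x : Pt K) : trans (-u) (trans u x) = x := by
  ext <;> simp [trans]

/-- the data of an involution -/
structure Inv (K : Type*) [Field K] where
  q : Fin 3 → K
  c : Bool × Fin 3 × Fin 3 → MvPolynomial (Fin 3 × Fin 3) K
  hq : fer q = 0
  hq0 : q ≠ 0
  hc : Good q c

variable [CharZero K]

/-- the automorphism covering the involution attached to `q` -/
noncomputable def psi (D : Inv K) (x : Pt K) : Pt K where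
  P := th1 (lift D.q D.c x.P) x.w
  m := th2 (lift D.q D.c x.P) x.w
  w := thi (lift D.q D.c (th1 (lift D.q D.c x.P) x.w)) x.P x.m
  h := by
    have hJ := lift_isJ D.hq D.hq0 D.hc x.h.J
    exact ⟨hJ.of_same (same_th1 hJ.idem _), lin_th2 hJ.idem _⟩

theorem psi_reg (D : Inv K) : RegMap (psi D) := by
  have h1 : Reg (OO K) (fun x => lift D.q D.c x.P) := reg_P.lift D.q D.c
  have h2 : Reg (OO K) (fun x => th1 (lift D.q D.c x.P) x.w) :=
    h1.add ((h1.mul reg_w).mul (Reg.one.sub h1))
  have h3 : Reg (OO K) (fun x => th2 (lift D.q D.c x.P) x.w) :=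
    ((Reg.one.sub h2).mul reg_w).add ((h1.mul reg_w).mul h2)
  have h4 : Reg (OO K) (fun x => lift D.q D.c (th1 (lift D.q D.c x.P) x.w)) := h2.lift D.q D.c
  exact ⟨h2, h3, ((reg_P.sub h4).add ((Reg.one.sub h4).mul reg_m)).add ((reg_P.mul reg_m).mul h4)⟩

theorem psi_psi (D : Inv K) (x : Pt K) : psi D (psi D x) = x := by
  have hJ0 := lift_isJ D.hq D.hq0 D.hc x.h.J
  have hs := same_th1 hJ0.idem x.w
  have hJ1 := hJ0.of_same hs
  have hs2 := lift_lift D.hq D.hq0 D.hc x.h.J hs
  have hJ2 := lift_isJ D.hq D.hq0 D.hc hJ1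
  have e1 : (psi D (psi D x)).P = x.P := th1_thi hJ2.idem hs2
  have e2 : (psi D (psi D x)).m = x.m := th2_thi hJ2.idem hs2 x.h.lin
  have e3 : (psi D (psi D x)).w = x.w := by
    have : (psi D (psi D x)).w = thi (lift D.q D.c (psi D (psi D x)).P) (psi D x).P (psi D x).m :=
      rfl
    rw [this, e1]
    exact thi_th hJ0.idem x.w
  exact Pt.ext e1 e2 e3

/-- transitivity -/
theorem transitive [IsAlgClosed K] (x y : Pt K) :
    ∃ (u : Mat K) (D : Inv K) (u' : Mat K), trans u' (psi D (trans u x)) = y := by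
  obtain ⟨q, c, hq, hq0, hc, hs⟩ := exists_q x.h.J y.h.J
  let D : Inv K := ⟨q, c, hq, hq0, hc⟩
  have hJ0 := lift_isJ D.hq D.hq0 D.hc x.h.J
  refine ⟨thi (lift q c x.P) y.P y.m - x.w, D, y.w - (psi D (trans
    (thi (lift q c x.P) y.P y.m - x.w) x)).w, ?_⟩
  have e0 : (trans (thi (lift q c x.P) y.P y.m - x.w) x).w = thi (lift q c x.P) y.P y.m := by
    simp [trans]
  set x' := trans (thi (lift q c x.P) y.P y.m - x.w) x with hx'
  have e1 : (psi D x').P = y.P := by
    show th1 (lift q c x'.P) x'.w = y.P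
    rw [e0]
    exact th1_thi hJ0.idem hs
  have e2 : (psi D x').m = y.m := by
    show th2 (lift q c x'.P) x'.w = y.m
    rw [e0]
    exact th2_thi hJ0.idem hs y.h.lin
  exact Pt.ext e1 e2 (by simp [trans])

end Pool.Agent.H638R3.IT
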