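import Mathlib
import Pool.Agent.H638R3.IT.Points

/-!
# The coordinate ring: points and automorphisms
-/

set_option autoImplicit false

namespace Pool.Agent.H638R3.IT

open Matrix MvPolynomial

variable {K : Type*} [Field K]

theorem IsPt.map {B C : Type*} [CommRing B] [CommRing C] {P m : Mat B} (h : IsPt P m)
    (f : B →+* C) : IsPt (P.map f) (m.map f) where
  J := h.J.map f
  lin := by
    have := congrArg (fun M : Mat B => M.map f) h.lin
    simp only [Matrix.map_mul, Matrix.map_sub f (fun a b => map_sub f a b),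
      Matrix.map_one f (map_zero f) (map_one f), Matrix.map_zero f (map_zero f)] at this
    exact this

instance : Algebra.FiniteType K (OO K) := by
  apply (Subalgebra.fg_iff_finiteType _).1
  exact ⟨(Set.finite_range (coo : Fin 3 × Fin 3 × Fin 3 → Pt K → K)).toFinset, by simp [OO]⟩

/-- evaluation at a point -/
def ev (x : Pt K) : OO K →ₐ[K] K := (Pi.evalAlgHom K (fun _ : Pt K => K) x).comp (OO K).val

@[simp] theorem ev_apply (x : Pt K) (f : OO K) : ev x f = (f : Pt K → K) x := rfl

theorem eq_of_ev {a b : OO K} (h : ∀ x, ev x a = ev x b) : a = b :=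
  Subtype.ext (funext h)

/-- generic coordinates -/
def gm (b : Fin 3) : Mat (OO K) := fun i j => ⟨coo (b, i, j), coo_mem _⟩

theorem gm_ev (b : Fin 3) (x : Pt K) : (gm b : Mat (OO K)).map (ev x) = x.mat b := by
  ext i j
  rfl

theorem isPt_gm : IsPt (gm 0 : Mat (OO K)) (gm 1) where
  J := by
    refine ⟨?_, ?_, ?_⟩
    · intro i j k l
      apply eq_of_ev
      intro x
      exact x.h.J.minor i j k l
    · apply eq_of_ev
      intro x
      exact x.h.J.tr
    · intro j
      apply eq_of_ev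
      intro x
      exact x.h.J.fer0 j
  lin := by
    refine Matrix.ext fun i j => ?_
    rw [Matrix.zero_apply]
    apply eq_of_ev
    intro x
    have h1 : ((gm 0 * gm 1 * (1 - gm 0) : Mat (OO K)).map (ev x)) i j = 0 := by
      simp only [Matrix.map_mul, Matrix.map_sub (ev x) (fun a b => map_sub (ev x) a b),
        Matrix.map_one (ev x) (map_zero (ev x)) (map_one (ev x)), gm_ev]
      have := congrFun (congrFun x.h.lin i) j
      exact this
    rw [map_zero]
    exact h1

/-- every algebra homomorphism to `K` is evaluation at a point -/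
theorem exists_point (χ : OO K →ₐ[K] K) : ∃ x : Pt K, χ = ev x := by
  refine ⟨⟨(gm 0).map χ, (gm 1).map χ, (gm 2).map χ, isPt_gm.map (χ : OO K →+* K)⟩, ?_⟩
  ext ⟨f, hf⟩
  induction hf using Algebra.adjoin_induction with
  | mem y hy =>
    obtain ⟨⟨b, i, j⟩, rfl⟩ := hy
    fin_cases b <;> rfl
  | algebraMap r =>
    have : (⟨algebraMap K (Pt K → K) r, (OO K).algebraMap_mem r⟩ : OO K) = algebraMap K (OO K) r :=
      rfl
    rw [this, AlgHom.commutes, AlgHom.commutes]
  | add y z hy hz h1 h2 =>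
    have : (⟨y + z, (OO K).add_mem hy hz⟩ : OO K) = ⟨y, hy⟩ + ⟨z, hz⟩ := rfl
    rw [this, map_add, map_add, h1, h2]
  | mul y z hy hz h1 h2 =>
    have : (⟨y * z, (OO K).mul_mem hy hz⟩ : OO K) = ⟨y, hy⟩ * ⟨z, hz⟩ := rfl
    rw [this, map_mul, map_mul, h1, h2]

/-- the comorphism of a regular map -/
def RegMap.hom {φ : Pt K → Pt K} (h : RegMap φ) : OO K →ₐ[K] OO K where
  toFun f := ⟨(f : Pt K → K) ∘ φ, h.comp_mem f.2⟩
  map_one' := rfl
  map_mul' _ _ := rfl
  map_zero' := rfl
  map_add' _ _ := rfl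
  commutes' _ := rfl

@[simp] theorem RegMap.ev_hom {φ : Pt K → Pt K} (h : RegMap φ) (x : Pt K) (f : OO K) :
    ev x (h.hom f) = ev (φ x) f := rfl

/-- the comorphism of a regular automorphism -/
def RegMap.equiv {φ ψ : Pt K → Pt K} (h : RegMap φ) (h' : RegMap ψ) (h1 : ∀ x, φ (ψ x) = x)
    (h2 : ∀ x, ψ (φ x) = x) : OO K ≃ₐ[K] OO K :=
  AlgEquiv.ofAlgHom h.hom h'.hom
    (by ext f : 1; apply eq_of_ev; intro x; simp only [AlgHom.comp_apply, RegMap.ev_hom]; rw [h2]; rfl)
    (by ext f : 1; apply eq_of_ev; intro x; simp only [AlgHom.comp_apply, RegMap.ev_hom]; rw [h1]; rfl)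

theorem exists_equiv [IsAlgClosed K] [CharZero K] (x y : Pt K) :
    ∃ g : OO K ≃ₐ[K] OO K, ∀ f, ev x (g f) = ev y f := by
  obtain ⟨u, D, u', h⟩ := transitive x y
  let g1 : OO K ≃ₐ[K] OO K := (trans_reg u).equiv (trans_reg (-u))
    (fun x => by have := trans_trans (-u) x; rwa [neg_neg] at this) (trans_trans u)
  let g2 : OO K ≃ₐ[K] OO K := (psi_reg D).equiv (psi_reg D) (psi_psi D) (psi_psi D)
  let g3 : OO K ≃ₐ[K] OO K := (trans_reg u').equiv (trans_reg (-u'))
    (fun x => by have := trans_trans (-u') x; rwa [neg_neg] at this) (trans_trans u')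
  refine ⟨(g3.trans g2).trans g1, fun f => ?_⟩
  rw [← h]
  rfl

end Pool.Agent.H638R3.IT
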