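import Mathlib
import Pool.Agent.H638R3.IT.Ring
import Pool.Agent.H638R3.IT.Cubic

/-!
# The coordinate ring is a domain
-/

set_option autoImplicit false

namespace Pool.Agent.H638R3.IT

open Matrix MvPolynomial

variable (K : Type*) [Field K]

noncomputable def iot : DD K →ₐ[K] Ds K := IsScalarTower.toAlgHom K (DD K) (Ds K)

noncomputable def sinv : Ds K := IsLocalization.Away.invSelf (gs K)

theorem sinv_mul : sinv K * iot K (gs K) = 1 := by
  rw [mul_comm]
  exact IsLocalization.Away.mul_invSelf (gs K)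

noncomputable def xv : Fin 3 → Ds K := fun i => iot K (gv K i)
noncomputable def xz : Fin 3 → Ds K := fun i => sinv K * iot K (gz K i)

noncomputable def xP : Mat (Ds K) := vecMulVec (xv K) (xz K)
noncomputable def xm : Mat (Ds K) :=
  (gb K).map (iot K) - xP K * (gb K).map (iot K) * (1 - xP K)
noncomputable def xw : Mat (Ds K) := (gw K).map (iot K)

theorem isPt_x : IsPt (xP K) (xm K) := by
  have hJ : IsJ (xP K) := by
    apply isJ_vec
    · have := fer_gv K
      have h2 := congrArg (iot K) this
      rw [map_zero] at h2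
      rw [← h2]
      exact (fer_map (iot K : DD K →+* Ds K) (gv K)).symm
    · have := sinv_mul K
      simp only [gs, map_add, map_mul] at this
      simp only [dotProduct, Fin.sum_univ_three, xv, xz]
      linear_combination this
  refine ⟨hJ, ?_⟩
  have hi := hJ.idem
  have : xP K * xm K * (1 - xP K) =
      (xP K - xP K * xP K) * (gb K).map (iot K) * (1 - xP K) +
       xP K * xP K * (gb K).map (iot K) * (xP K - xP K * xP K) := by
    rw [xm]; noncomm_ring
  rw [this, hi]
  simp

noncomputable def xmat : Fin 3 → Mat (Ds K) := ![xP K, xm K, xw K]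

noncomputable def Phi : MvPolynomial (Fin 3 × Fin 3 × Fin 3) K →ₐ[K] Ds K :=
  aeval (fun b => xmat K b.1 b.2.1 b.2.2)

variable {K}

theorem specialise (x : Pt K) : ∃ χ : Ds K →ₐ[K] K, ∀ p, χ (Phi K p) = eval (fun b => coo b x) p := by
  obtain ⟨v, z, -, hv, hz, hP⟩ := x.h.J.exists_vec
  let χ0 : DD K →ₐ[K] K := par v z x.m x.w hv
  have hs : χ0 (gs K) = 1 := by
    rw [par_gs]
    simp only [dotProduct, Fin.sum_univ_three] at hz
    exact hz
  let χ : Ds K →ₐ[K] K := IsLocalization.Away.liftAlgHom (gs K) (f := χ0) (by rw [hs]; exact isUnit_one)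
  have h0 : ∀ a, χ (iot K a) = χ0 a := by
    intro a
    exact IsLocalization.Away.lift_eq (gs K) (g := (χ0 : DD K →+* K))
      (by change IsUnit (χ0 (gs K)); rw [hs]; exact isUnit_one) a
  have h1 : χ (sinv K) = 1 := by
    have := congrArg χ (sinv_mul K)
    rw [map_mul, h0, hs, map_one, mul_one] at this
    exact this
  have hxP : (xP K).map χ = x.P := by
    rw [hP]
    ext i j
    simp only [xP, Matrix.map_apply, vecMulVec_apply, xv, xz, map_mul, h0, h1]
    rw [par_gv, par_gz, one_mul]
  have hgb : ((gb K).map (iot K)).map χ = x.m := by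
    ext i j
    simp only [Matrix.map_apply, h0]
    exact par_gb v z x.m x.w hv i j
  have hxm : (xm K).map χ = x.m := by
    simp only [xm, Matrix.map_mul, Matrix.map_sub χ (fun a b => map_sub χ a b),
      Matrix.map_one χ (map_zero χ) (map_one χ), hxP, hgb, x.h.lin, sub_zero]
  have hxw : (xw K).map χ = x.w := by
    ext i j
    simp only [xw, Matrix.map_apply, h0]
    exact par_gw v z x.m x.w hv i j
  refine ⟨χ, fun p => ?_⟩
  have h2 : χ.comp (Phi K) = aeval (fun b => coo b x) := by
    ext ⟨b, i, j⟩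
    simp only [Phi, AlgHom.comp_apply, aeval_X]
    fin_cases b
    · exact congrFun (congrFun hxP i) j
    · exact congrFun (congrFun hxm i) j
    · exact congrFun (congrFun hxw i) j
  have h3 := DFunLike.congr_fun h2 p
  simpa using h3

theorem generic (p : MvPolynomial (Fin 3 × Fin 3 × Fin 3) K) [IsAlgClosed K] [CharZero K]
    (h : ∀ x : Pt K, eval (fun b => coo b x) p = 0) : Phi K p = 0 := by
  apply eq_zero_of_points (K := K)
  intro χ
  let x : Pt K := ⟨(xP K).map χ, (xm K).map χ, (xw K).map χ, (isPt_x K).map (χ : Ds K →+* K)⟩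
  rw [← h x]
  have h2 : χ.comp (Phi K) = aeval (fun b => coo b x) := by
    ext ⟨b, i, j⟩
    simp only [Phi, AlgHom.comp_apply, aeval_X]
    fin_cases b <;> rfl
  have h3 := DFunLike.congr_fun h2 p
  simpa using h3

theorem exists_poly (f : OO K) : ∃ p : MvPolynomial (Fin 3 × Fin 3 × Fin 3) K,
    ∀ x, ev x f = eval (fun b => coo b x) p := by
  have h : (f : Pt K → K) ∈ Algebra.adjoin K (Set.range coo) := f.2
  rw [Algebra.adjoin_range_eq_range_aeval] at h
  obtain ⟨p, hp⟩ := h
  refine ⟨p, fun x => ?_⟩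
  rw [ev_apply, ← hp]
  have h2 : (Pi.evalAlgHom K (fun _ : Pt K => K) x).comp
      (aeval (coo : Fin 3 × Fin 3 × Fin 3 → Pt K → K)) = aeval (fun b => coo b x) := by
    ext b
    simp
  have h3 := DFunLike.congr_fun h2 p
  simpa using h3

theorem isJ_vec_point {v z : Fin 3 → K} (hv : fer v = 0) (hz : z ⬝ᵥ v = 1) :
    IsPt (vecMulVec v z) 0 := ⟨isJ_vec hv hz, by simp⟩

variable (K) in
/-- a base point -/
def pt0 : Pt K where
  P := vecMulVec ![1, -1, 0] ![1, 0, 0]
  m := 0
  w := 0
  h := isJ_vec_point (by simp [fer]; norm_num) (by simp)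

instance : Nontrivial (OO K) := by
  refine ⟨⟨0, 1, fun h => ?_⟩⟩
  have := congrArg (ev (pt0 K)) h
  simp at this

instance [IsAlgClosed K] [CharZero K] : NoZeroDivisors (OO K) where
  eq_zero_or_eq_zero_of_mul_eq_zero := by
    intro f g hfg
    obtain ⟨p, hp⟩ := exists_poly f
    obtain ⟨q, hq⟩ := exists_poly g
    have h1 : Phi K (p * q) = 0 := by
      apply generic
      intro x
      rw [map_mul, ← hp, ← hq, ← map_mul, hfg, map_zero]
    rw [map_mul] at h1
    rcases mul_eq_zero.1 h1 with h | h
    · left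
      apply eq_of_ev
      intro x
      obtain ⟨χ, hχ⟩ := specialise x
      rw [hp, ← hχ, h, map_zero, map_zero]
    · right
      apply eq_of_ev
      intro x
      obtain ⟨χ, hχ⟩ := specialise x
      rw [hq, ← hχ, h, map_zero, map_zero]

instance [IsAlgClosed K] [CharZero K] : IsDomain (OO K) := NoZeroDivisors.to_isDomain _

end Pool.Agent.H638R3.IT
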