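import Mathlib
import Pool.Agent.H638R3.IT.Domain

/-!
# Polynomial curves in the variety
-/

set_option autoImplicit false

namespace Pool.Agent.H638R3.IT

open Matrix Polynomial

variable {K : Type*} [Field K]

/-- a polynomially parametrised curve -/
structure Curve (K : Type*) [Field K] where
  γ : K → Pt K
  Γ : Fin 3 × Fin 3 × Fin 3 → K[X]
  h : ∀ t b, coo b (γ t) = (Γ b).eval t

variable (K) in
/-- polynomials as functions -/
def eps : K[X] →ₐ[K] (K → K) where
  toFun p := fun t => p.eval t
  map_one' := by funext t; simp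
  map_mul' p q := by funext t; simp
  map_zero' := by funext t; simp
  map_add' p q := by funext t; simp
  commutes' r := by funext t; simp

variable (K) in
theorem eps_injective [Infinite K] : Function.Injective (eps K) := by
  intro p q h
  apply Polynomial.funext
  intro t
  exact congrFun h t

/-- restriction to a curve, as functions -/
def Curve.res (c : Curve K) : OO K →ₐ[K] (K → K) where
  toFun f := fun t => ev (c.γ t) f
  map_one' := by funext t; simp
  map_mul' p q := by funext t; simp
  map_zero' := by funext t; simp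
  map_add' p q := by funext t; simp
  commutes' r := by funext t; exact (ev (c.γ t)).commutes r

theorem Curve.res_mem (c : Curve K) (f : OO K) : c.res f ∈ (eps K).range := by
  obtain ⟨p, hp⟩ := exists_poly f
  refine ⟨MvPolynomial.aeval c.Γ p, ?_⟩
  funext t
  have h1 : c.res f t = MvPolynomial.eval (fun b => coo b (c.γ t)) p := hp (c.γ t)
  rw [h1]
  have h2 : (Polynomial.aeval t).comp (MvPolynomial.aeval c.Γ) =
      MvPolynomial.aeval (R := K) (fun b => coo b (c.γ t)) := by
    ext b
    simp [c.h t b]
  have h3 := DFunLike.congr_fun h2 p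
  simp only [AlgHom.comp_apply] at h3
  have h4 : (MvPolynomial.aeval (R := K) (fun b => coo b (c.γ t))) p =
    MvPolynomial.eval (fun b => coo b (c.γ t)) p := by
    rw [MvPolynomial.aeval_def, MvPolynomial.eval₂_eq_eval_map]; simp
  rw [← h4, ← h3]
  show (MvPolynomial.aeval c.Γ p).eval t = _
  rw [Polynomial.aeval_def, Polynomial.eval₂_eq_eval_map]; simp

/-- restriction to a curve -/
noncomputable def Curve.hom [Infinite K] (c : Curve K) : OO K →ₐ[K] K[X] :=
  ((AlgEquiv.ofInjective (eps K) (eps_injective K)).symm : (eps K).range →ₐ[K] K[X]).comp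
    (c.res.codRestrict (eps K).range c.res_mem)

theorem Curve.eval_hom [Infinite K] (c : Curve K) (f : OO K) (t : K) :
    (c.hom f).eval t = ev (c.γ t) f := by
  have h1 : eps K (c.hom f) = c.res f := by
    have := AlgEquiv.apply_symm_apply (AlgEquiv.ofInjective (eps K) (eps_injective K))
      (c.res.codRestrict (eps K).range c.res_mem f)
    have h2 := congrArg Subtype.val this
    exact h2
  exact congrFun h1 t

theorem Curve.unit_const [Infinite K] (c : Curve K) {u : OO K} (hu : IsUnit u) (s t : K) :
    ev (c.γ s) u = ev (c.γ t) u := by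
  have h1 : IsUnit (c.hom u) := hu.map c.hom
  rw [Polynomial.isUnit_iff] at h1
  obtain ⟨r, -, hr⟩ := h1
  rw [← c.eval_hom, ← c.eval_hom, ← hr]
  simp

/-! ### lines in the fibres -/

section map

variable {R S : Type*} [Ring R] [Ring S]

theorem th1_map (f : R →+* S) (a b : R) : f (th1 a b) = th1 (f a) (f b) := by
  simp [th1]

theorem th2_map (f : R →+* S) (a b : R) : f (th2 a b) = th2 (f a) (f b) := by
  simp [th2, th1_map]

end map

/-- a segment as a matrix over the polynomial ring -/
noncomputable def seg (a b : Mat K) : Mat K[X] :=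
  Matrix.of fun i j => C (a i j) + X * C (b i j - a i j)

theorem seg_eval (a b : Mat K) (t : K) :
    (Polynomial.evalRingHom t).mapMatrix (seg a b) = a + t • (b - a) := by
  ext i j
  simp [seg]

theorem C_eval (a : Mat K) (t : K) :
    (Polynomial.evalRingHom t).mapMatrix ((C : K →+* K[X]).mapMatrix a) = a := by
  ext i j
  simp

/-- the curve joining two points of a fibre -/
noncomputable def fibCurve (x y : Pt K) : Curve K where
  γ t :=
    { P := th1 x.P (thi x.P x.P x.m + t • (thi x.P y.P y.m - thi x.P x.P x.m))
      m := th2 x.P (thi x.P x.P x.m + t • (thi x.P y.P y.m - thi x.P x.P x.m))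
      w := x.w + t • (y.w - x.w)
      h := ⟨x.h.J.of_same (same_th1 x.h.J.idem _), lin_th2 x.h.J.idem _⟩ }
  Γ b := ![th1 ((C : K →+* K[X]).mapMatrix x.P) (seg (thi x.P x.P x.m) (thi x.P y.P y.m)),
    th2 ((C : K →+* K[X]).mapMatrix x.P) (seg (thi x.P x.P x.m) (thi x.P y.P y.m)),
    seg x.w y.w] b.1 b.2.1 b.2.2
  h := by
    rintro t ⟨b, i, j⟩
    fin_cases b
    · have h := th1_map ((Polynomial.evalRingHom t).mapMatrix (m := Fin 3))
        ((C : K →+* K[X]).mapMatrix x.P) (seg (thi x.P x.P x.m) (thi x.P y.P y.m))
      rw [C_eval, seg_eval] at h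
      exact (congrFun (congrFun h i) j).symm
    · have h := th2_map ((Polynomial.evalRingHom t).mapMatrix (m := Fin 3))
        ((C : K →+* K[X]).mapMatrix x.P) (seg (thi x.P x.P x.m) (thi x.P y.P y.m))
      rw [C_eval, seg_eval] at h
      exact (congrFun (congrFun h i) j).symm
    · have h := seg_eval x.w y.w t
      exact (congrFun (congrFun h i) j).symm

theorem same_self {R : Type*} [Ring R] {P : R} (h : P * P = P) : Same P P := ⟨h, h⟩

theorem unit_fib [Infinite K] {u : OO K} (hu : IsUnit u) {x y : Pt K} (hs : Same x.P y.P) :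
    ev x u = ev y u := by
  have h := (fibCurve x y).unit_const hu 0 1
  have h0 : (fibCurve x y).γ 0 = x := by
    apply Pt.ext
    · show th1 x.P (_ + (0:K) • _) = x.P
      rw [zero_smul, add_zero]
      exact th1_thi x.h.J.idem (same_self x.h.J.idem)
    · show th2 x.P (_ + (0:K) • _) = x.m
      rw [zero_smul, add_zero]
      exact th2_thi x.h.J.idem (same_self x.h.J.idem) x.h.lin
    · show x.w + (0:K) • _ = x.w
      rw [zero_smul, add_zero]
  have h1 : (fibCurve x y).γ 1 = y := by
    apply Pt.ext
    · show th1 x.P (_ + (1:K) • _) = y.P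
      rw [one_smul, add_sub_cancel]
      exact th1_thi x.h.J.idem hs
    · show th2 x.P (_ + (1:K) • _) = y.m
      rw [one_smul, add_sub_cancel]
      exact th2_thi x.h.J.idem hs y.h.lin
    · show x.w + (1:K) • _ = y.w
      rw [one_smul, add_sub_cancel]
  rw [h0, h1] at h
  exact h

end Pool.Agent.H638R3.IT
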