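import Mathlib
import Pool.Agent.H638R3.IT.Curve

/-!
# Units are constant
-/

set_option autoImplicit false

namespace Pool.Agent.H638R3.IT

open Matrix Polynomial

variable {K : Type*} [Field K]

/-- functions on the affine Fermat cubic which are polynomial in normal form -/
def NF (g : K → K → K) : Prop :=
  ∃ a0 a1 a2 : K[X], ∀ x y, x ^ 3 + y ^ 3 + 1 = 0 →
    g x y = a0.eval y + a1.eval y * x + a2.eval y * x ^ 2

theorem NF.add {g h : K → K → K} (hg : NF g) (hh : NF h) : NF (fun x y => g x y + h x y) := by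
  obtain ⟨a0, a1, a2, ha⟩ := hg
  obtain ⟨b0, b1, b2, hb⟩ := hh
  refine ⟨a0 + b0, a1 + b1, a2 + b2, fun x y hxy => ?_⟩
  show g x y + h x y = _
  rw [ha x y hxy, hb x y hxy]
  simp only [eval_add]
  ring

theorem NF.mul {g h : K → K → K} (hg : NF g) (hh : NF h) : NF (fun x y => g x y * h x y) := by
  obtain ⟨a0, a1, a2, ha⟩ := hg
  obtain ⟨b0, b1, b2, hb⟩ := hh
  refine ⟨a0 * b0 - (1 + X ^ 3) * (a1 * b2 + a2 * b1),
    a0 * b1 + a1 * b0 - (1 + X ^ 3) * (a2 * b2), a0 * b2 + a1 * b1 + a2 * b0, fun x y hxy => ?_⟩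
  show g x y * h x y = _
  rw [ha x y hxy, hb x y hxy]
  simp only [eval_add, eval_sub, eval_mul, eval_one, eval_pow, eval_X]
  linear_combination ((a1.eval y * b2.eval y + a2.eval y * b1.eval y) +
    a2.eval y * b2.eval y * x) * hxy

theorem NF.const (c : K) : NF (fun _ _ => c) := ⟨C c, 0, 0, fun x y _ => by simp⟩
theorem NF.fst : NF (fun x _ : K => x) := ⟨0, 1, 0, fun x y _ => by simp⟩
theorem NF.snd : NF (fun _ y : K => y) := ⟨X, 0, 0, fun x y _ => by simp⟩

theorem NF.poly {σ : Type*} (p : MvPolynomial σ K) {F : σ → K → K → K} (hF : ∀ s, NF (F s)) :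
    NF (fun x y => MvPolynomial.eval (fun s => F s x y) p) := by
  induction p using MvPolynomial.induction_on with
  | C a => simpa using NF.const a
  | add p q hp hq => simpa using hp.add hq
  | mul_X p s hp => simpa using hp.mul (hF s)

theorem fer_A {x y : K} (h : x ^ 3 + y ^ 3 + 1 = 0) : fer (![x, y, 1] : Fin 3 → K) = 0 := by
  simp [fer]; linear_combination h

theorem fer_B {x y : K} (h : x ^ 3 + y ^ 3 + 1 = 0) : fer (![x, 1, y] : Fin 3 → K) = 0 := by
  simp [fer]; linear_combination h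

/-- a point in the first chart -/
def ptA (x y : K) (h : x ^ 3 + y ^ 3 + 1 = 0) : Pt K where
  P := vecMulVec ![x, y, 1] ![0, 0, 1]
  m := 0
  w := 0
  h := isJ_vec_point (fer_A h) (by simp)

/-- a point in the second chart -/
def ptB (x y : K) (h : x ^ 3 + y ^ 3 + 1 = 0) : Pt K where
  P := vecMulVec ![x, 1, y] ![0, 1, 0]
  m := 0
  w := 0
  h := isJ_vec_point (fer_B h) (by simp)

theorem nf_A (u : OO K) : ∃ g : K → K → K, NF g ∧ ∀ x y h, ev (ptA x y h) u = g x y := by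
  obtain ⟨p, hp⟩ := exists_poly u
  refine ⟨_, NF.poly p (F := fun b x y =>
    (![vecMulVec ![x, y, 1] ![0, 0, 1], 0, 0] : Fin 3 → Mat K) b.1 b.2.1 b.2.2) ?_, ?_⟩
  · have h1 : ∀ i, NF (fun x y => (![x, y, 1] : Fin 3 → K) i) := by
      intro i
      fin_cases i
      · exact NF.fst
      · exact NF.snd
      · exact NF.const 1
    rintro ⟨b, i, j⟩
    fin_cases b
    · exact (h1 i).mul (NF.const ((![0, 0, 1] : Fin 3 → K) j))
    · exact NF.const (0 : K)
    · exact NF.const (0 : K)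
  · intro x y h
    rw [hp]
    congr 1

theorem nf_B (u : OO K) : ∃ g : K → K → K, NF g ∧ ∀ x y h, ev (ptB x y h) u = g x y := by
  obtain ⟨p, hp⟩ := exists_poly u
  refine ⟨_, NF.poly p (F := fun b x y =>
    (![vecMulVec ![x, 1, y] ![0, 1, 0], 0, 0] : Fin 3 → Mat K) b.1 b.2.1 b.2.2) ?_, ?_⟩
  · have h1 : ∀ i, NF (fun x y => (![x, 1, y] : Fin 3 → K) i) := by
      intro i
      fin_cases i
      · exact NF.fst
      · exact NF.const 1
      · exact NF.snd
    rintro ⟨b, i, j⟩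
    fin_cases b
    · exact (h1 i).mul (NF.const ((![0, 1, 0] : Fin 3 → K) j))
    · exact NF.const (0 : K)
    · exact NF.const (0 : K)
  · intro x y h
    rw [hp]
    congr 1

/-- a polynomial which is also a polynomial in the inverse variable is constant -/
theorem const_of_inv [Infinite K] (a b : K[X]) {S : Set K} (hS : S.Finite)
    (h : ∀ y, y ∉ S → y ≠ 0 → a.eval y = b.eval y⁻¹) : ∃ c, a = C c := by
  have h1 : X ^ b.natDegree * a = b.reverse := by
    apply Polynomial.eq_of_infinite_eval_eq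
    apply Set.Infinite.mono (s := (S ∪ {0})ᶜ)
    · intro y hy
      simp only [Set.mem_compl_iff, Set.mem_union, Set.mem_singleton_iff, not_or] at hy
      obtain ⟨hy1, hy0⟩ := hy
      show eval y (X ^ b.natDegree * a) = eval y b.reverse
      rw [eval_mul, eval_pow, eval_X, h y hy1 hy0]
      have hinv : Invertible y⁻¹ := invertibleOfNonzero (inv_ne_zero hy0)
      have h3 := Polynomial.eval₂_reverse_mul_pow (RingHom.id K) (y⁻¹) b
      rw [invOf_eq_inv, inv_inv, Polynomial.eval₂_id, Polynomial.eval₂_id] at h3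
      rw [← h3, mul_comm, mul_assoc, ← mul_pow, inv_mul_cancel₀ hy0, one_pow, mul_one]
    · exact (hS.union (Set.finite_singleton 0)).infinite_compl
  have h2 : b.natDegree + a.natDegree ≤ b.natDegree ∨ a = 0 := by
    by_cases ha : a = 0
    · right; exact ha
    · left
      have := congrArg natDegree h1
      rw [natDegree_mul (pow_ne_zero _ X_ne_zero) ha, natDegree_X_pow] at this
      rw [this]
      exact reverse_natDegree_le b
  rcases h2 with h2 | h2
  · exact ⟨a.coeff 0, eq_C_of_natDegree_eq_zero (by omega)⟩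
  · exact ⟨0, by simp [h2]⟩


/-- three distinct roots -/
theorem quad_zero [IsAlgClosed K] [CharZero K] {a0 a1 a2 x : K} (hx : x ≠ 0)
    (h : ∀ x', x' ^ 3 = x ^ 3 → a0 + a1 * x' + a2 * x' ^ 2 = 0) : a0 = 0 ∧ a1 = 0 ∧ a2 = 0 := by
  obtain ⟨r, hr⟩ := IsAlgClosed.exists_pow_nat_eq (-3 : K) (n := 2) (by norm_num)
  set o : K := (-1 + r) / 2 with ho
  have ho2 : o ^ 2 + o + 1 = 0 := by
    rw [ho]; field_simp; linear_combination hr
  have ho3 : o ^ 3 = 1 := by linear_combination (o - 1) * ho2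
  have hr0 : r ≠ 0 := by
    rintro rfl
    norm_num at hr
  have e1 := h x rfl
  have e2 := h (o * x) (by rw [mul_pow, ho3, one_mul])
  have e3 := h (o ^ 2 * x) (by rw [mul_pow, ← pow_mul, mul_comm 2 3, pow_mul, ho3, one_pow, one_mul])
  have h3 : (3 : K) ≠ 0 := three_ne_zero
  have f0 : (3 : K) * a0 = 0 := by
    linear_combination e1 + e2 + e3 - (a1 * x) * ho2 - (a2 * x ^ 2) * ho2 -
      a2 * x ^ 2 * o * ho3
  have f1 : (3 : K) * x * a1 = 0 := by
    linear_combination e1 + o ^ 2 * e2 + o * e3 - a0 * ho2 - 2 * (a1 * x) * ho3 -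
      (a2 * x ^ 2) * ho2 - (a2 * x ^ 2) * (o + o ^ 2) * ho3
  have f2 : (3 : K) * x ^ 2 * a2 = 0 := by
    linear_combination e1 + o * e2 + o ^ 2 * e3 - a0 * ho2 - (a1 * x) * ho2 -
      a1 * x * o * ho3 - (a2 * x ^ 2) * (ho3 + (o ^ 3 + 1) * ho3)
  refine ⟨?_, ?_, ?_⟩
  · exact (mul_eq_zero.1 f0).resolve_left h3
  · exact (mul_eq_zero.1 f1).resolve_left (mul_ne_zero h3 hx)
  · exact (mul_eq_zero.1 f2).resolve_left (mul_ne_zero h3 (pow_ne_zero 2 hx))

theorem normal_const [IsAlgClosed K] [CharZero K] {a0 a1 a2 b0 b1 b2 : K[X]}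
    (h : ∀ x y, x ^ 3 + y ^ 3 + 1 = 0 → y ≠ 0 →
      a0.eval y + a1.eval y * x + a2.eval y * x ^ 2 =
        b0.eval y⁻¹ + b1.eval y⁻¹ * (x * y⁻¹) + b2.eval y⁻¹ * (x * y⁻¹) ^ 2) :
    ∃ c, a0 = C c ∧ a1 = 0 ∧ a2 = 0 := by
  set S : Set K := {y | y ^ 3 + 1 = 0} with hS
  have hfin : S.Finite := by
    have h1 : (X ^ 3 + C (1 : K)) ≠ 0 := (monic_X_pow_add_C 1 three_ne_zero).ne_zero
    refine (Polynomial.finite_setOfPred_isRoot h1).subset ?_
    intro y hy
    simp only [hS, Set.mem_ofPred_eq] at hy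
    simp [IsRoot, hy]
  have key : ∀ y, y ∉ S → y ≠ 0 → a0.eval y = b0.eval y⁻¹ ∧ a1.eval y = b1.eval y⁻¹ * y⁻¹ ∧
      a2.eval y = b2.eval y⁻¹ * (y⁻¹) ^ 2 := by
    intro y hy hy0
    obtain ⟨x, hx⟩ := IsAlgClosed.exists_pow_nat_eq (-(y ^ 3 + 1)) (n := 3) (by norm_num)
    have hx0 : x ≠ 0 := by
      rintro rfl
      apply hy
      show y ^ 3 + 1 = 0
      linear_combination hx
    have := quad_zero (a0 := a0.eval y - b0.eval y⁻¹) (a1 := a1.eval y - b1.eval y⁻¹ * y⁻¹)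
      (a2 := a2.eval y - b2.eval y⁻¹ * (y⁻¹) ^ 2) hx0 (fun x' hx' => by
        have := h x' y (by rw [hx', hx]; ring) hy0
        linear_combination this)
    exact ⟨sub_eq_zero.1 this.1, sub_eq_zero.1 this.2.1, sub_eq_zero.1 this.2.2⟩
  obtain ⟨c, hc⟩ := const_of_inv a0 b0 hfin (fun y hy hy0 => (key y hy hy0).1)
  obtain ⟨c1, hc1⟩ := const_of_inv (X * a1) b1 hfin (fun y hy hy0 => by
    rw [eval_mul, eval_X, (key y hy hy0).2.1]; field_simp)
  obtain ⟨c2, hc2⟩ := const_of_inv (X ^ 2 * a2) b2 hfin (fun y hy hy0 => by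
    rw [eval_mul, eval_pow, eval_X, (key y hy hy0).2.2]; field_simp)
  have e1 : c1 = 0 := by
    have := congrArg (eval 0) hc1
    simpa using this.symm
  have e2 : c2 = 0 := by
    have := congrArg (eval 0) hc2
    simpa using this.symm
  refine ⟨c, hc, ?_, ?_⟩
  · rw [e1, C_0] at hc1
    exact (mul_eq_zero.1 hc1).resolve_left X_ne_zero
  · rw [e2, C_0] at hc2
    exact (mul_eq_zero.1 hc2).resolve_left (pow_ne_zero 2 X_ne_zero)

theorem AB {x y : K} (h : x ^ 3 + y ^ 3 + 1 = 0) (hy : y ≠ 0) :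
    (x * y⁻¹) ^ 3 + (y⁻¹) ^ 3 + 1 = 0 := by
  field_simp
  linear_combination h

theorem same_AB {x y : K} (h : x ^ 3 + y ^ 3 + 1 = 0) (hy : y ≠ 0) :
    Same (ptA x y h).P (ptB (x * y⁻¹) y⁻¹ (AB h hy)).P := by
  refine same_of_smul (c := y⁻¹) (by simp) (by simp) ?_
  funext i
  fin_cases i
  · simp [mul_comm]
  · simp [hy]
  · simp

theorem same_BA {x y : K} (h : x ^ 3 + y ^ 3 + 1 = 0) (hy : y ≠ 0) :
    Same (ptB x y h).P (ptA (x * y⁻¹) y⁻¹ (AB h hy)).P := by
  refine same_of_smul (c := y⁻¹) (by simp) (by simp) ?_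
  funext i
  fin_cases i
  · simp [mul_comm]
  · simp
  · simp [hy]

/-- every unit of the coordinate ring is constant -/
theorem unit_const [IsAlgClosed K] [CharZero K] {u : OO K} (hu : IsUnit u) :
    ∃ c : K, ∀ x : Pt K, ev x u = c := by
  have hinf : Infinite K := inferInstance
  obtain ⟨gA, ⟨a0, a1, a2, ha⟩, hA⟩ := nf_A u
  obtain ⟨gB, ⟨b0, b1, b2, hb⟩, hB⟩ := nf_B u
  have h1 : ∀ x y, x ^ 3 + y ^ 3 + 1 = 0 → y ≠ 0 →
      a0.eval y + a1.eval y * x + a2.eval y * x ^ 2 =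
        b0.eval y⁻¹ + b1.eval y⁻¹ * (x * y⁻¹) + b2.eval y⁻¹ * (x * y⁻¹) ^ 2 := by
    intro x y h hy
    rw [← ha x y h, ← hb _ _ (AB h hy), ← hA x y h, ← hB _ _ (AB h hy)]
    exact unit_fib hu (same_AB h hy)
  have h2 : ∀ x y, x ^ 3 + y ^ 3 + 1 = 0 → y ≠ 0 →
      b0.eval y + b1.eval y * x + b2.eval y * x ^ 2 =
        a0.eval y⁻¹ + a1.eval y⁻¹ * (x * y⁻¹) + a2.eval y⁻¹ * (x * y⁻¹) ^ 2 := by
    intro x y h hy
    rw [← hb x y h, ← ha _ _ (AB h hy), ← hB x y h, ← hA _ _ (AB h hy)]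
    exact unit_fib hu (same_BA h hy)
  obtain ⟨c, ea0, ea1, ea2⟩ := normal_const h1
  obtain ⟨c', eb0, eb1, eb2⟩ := normal_const h2
  have kA : ∀ x y h, ev (ptA x y h) u = c := by
    intro x y h
    rw [hA, ha x y h, ea0, ea1, ea2]
    simp
  have kB : ∀ x y h, ev (ptB x y h) u = c' := by
    intro x y h
    rw [hB, hb x y h, eb0, eb1, eb2]
    simp
  have hcc : c = c' := by
    have h0 : (0 : K) ^ 3 + (-1) ^ 3 + 1 = 0 := by norm_num
    have := unit_fib hu (same_AB h0 (by norm_num))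
    rw [kA, kB] at this
    exact this
  subst hcc
  refine ⟨c, fun x => ?_⟩
  obtain ⟨v, z, hv0, hv, hz, hP⟩ := x.h.J.exists_vec
  simp only [fer] at hv
  by_cases h2 : v 2 = 0
  · have h1 : v 1 ≠ 0 := by
      intro h1
      rw [ne_zero_iff3] at hv0
      apply hv0
      refine ⟨?_, h1, h2⟩
      rw [h1, h2] at hv
      exact pow_eq_zero_iff (three_ne_zero) |>.1 (by linear_combination hv)
    have hc : (v 0 / v 1) ^ 3 + (v 2 / v 1) ^ 3 + 1 = 0 := by
      field_simp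
      linear_combination hv
    rw [← kB _ _ hc]
    apply unit_fib hu
    rw [hP]
    refine same_of_smul (c := (v 1)⁻¹) hz (by simp) ?_
    funext i
    fin_cases i
    · simp; ring
    · simp [h1]
    · simp; ring
  · have hc : (v 0 / v 2) ^ 3 + (v 1 / v 2) ^ 3 + 1 = 0 := by
      field_simp
      linear_combination hv
    rw [← kA _ _ hc]
    apply unit_fib hu
    rw [hP]
    refine same_of_smul (c := (v 2)⁻¹) hz (by simp) ?_
    funext i
    fin_cases i
    · simp; ring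
    · simp; ring
    · simp [h2]

end Pool.Agent.H638R3.IT
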