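import Mathlib
import Pool.Agent.H638R3.IT.Units

/-!
# Failure of double transitivity, and the dimension
-/

set_option autoImplicit false

namespace Pool.Agent.H638R3.IT

open Matrix Polynomial

variable {K : Type*} [Field K]

theorem exists_omega [IsAlgClosed K] [CharZero K] : ∃ o : K, o ^ 2 + o + 1 = 0 := by
  obtain ⟨r, hr⟩ := IsAlgClosed.exists_pow_nat_eq (-3 : K) (n := 2) (by norm_num)
  refine ⟨(-1 + r) / 2, ?_⟩
  field_simp; linear_combination hr

theorem two_cubes [IsAlgClosed K] [CharZero K] {b c : K[X]} (h : b ^ 3 + c ^ 3 = 0)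
    (h0 : b ≠ 0 ∨ c ≠ 0) : b ≠ 0 ∧ ∃ r : K, c = C r * b := by
  have hb : b ≠ 0 := by
    rintro rfl
    rcases h0 with h0 | h0
    · exact h0 rfl
    · exact h0 (pow_eq_zero_iff (three_ne_zero) |>.1 (by linear_combination h))
  refine ⟨hb, ?_⟩
  obtain ⟨o, ho⟩ := exists_omega (K := K)
  have hoC : (C o : K[X]) ^ 2 + C o + 1 = 0 := by
    rw [← C_pow, ← C_add, ← C_1, ← C_add, ho, C_0]
  have h1 : (c + b) * ((c + C o * b) * (c + C (o ^ 2) * b)) = 0 := by
    rw [C_pow]
    linear_combination h + ((c + b) * c * b + (c + b) * b ^ 2 * (C o - 1)) * hoC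
  rcases mul_eq_zero.1 h1 with h2 | h2
  · exact ⟨-1, by rw [C_neg, C_1]; linear_combination h2⟩
  rcases mul_eq_zero.1 h2 with h3 | h3
  · exact ⟨-o, by rw [C_neg]; linear_combination h3⟩
  · exact ⟨-o ^ 2, by rw [C_neg]; linear_combination h3⟩

theorem cubic_poly [IsAlgClosed K] [CharZero K] (v : Fin 3 → K[X]) (hv0 : v ≠ 0)
    (hv : fer v = 0) : ∃ (d : K[X]) (u : Fin 3 → K), d ≠ 0 ∧ u ≠ 0 ∧ ∀ i, v i = C (u i) * d := by
  simp only [fer] at hv
  have hv0' : ¬ (v 0 = 0 ∧ v 1 = 0 ∧ v 2 = 0) := by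
    rintro ⟨h0, h1, h2⟩
    apply hv0
    funext i
    fin_cases i <;> simp [h0, h1, h2]
  by_cases h0 : v 0 = 0
  · have h12 : v 1 ≠ 0 ∨ v 2 ≠ 0 := by
      by_contra hc
      push Not at hc
      exact hv0' ⟨h0, hc.1, hc.2⟩
    rw [h0] at hv
    obtain ⟨hb, r, hr⟩ := two_cubes (b := v 1) (c := v 2) (by linear_combination hv) h12
    refine ⟨v 1, ![0, 1, r], hb, ?_, ?_⟩
    · intro hc; have := congrFun hc 1; simp at this
    · intro i
      fin_cases i
      · simp [h0]
      · simp
      · simpa using hr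
  by_cases h1 : v 1 = 0
  · rw [h1] at hv
    obtain ⟨hb, r, hr⟩ := two_cubes (b := v 0) (c := v 2) (by linear_combination hv) (Or.inl h0)
    refine ⟨v 0, ![1, 0, r], hb, ?_, ?_⟩
    · intro hc; have := congrFun hc 0; simp at this
    · intro i
      fin_cases i
      · simp
      · simp [h1]
      · simpa using hr
  by_cases h2 : v 2 = 0
  · rw [h2] at hv
    obtain ⟨hb, r, hr⟩ := two_cubes (b := v 0) (c := v 1) (by linear_combination hv) (Or.inl h0)
    refine ⟨v 0, ![1, r, 0], hb, ?_, ?_⟩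
    · intro hc; have := congrFun hc 0; simp at this
    · intro i
      fin_cases i
      · simp
      · simpa using hr
      · simp [h2]
  · obtain ⟨d, a', b', c', ⟨e1, e2, e3⟩, u1, u2, u3⟩ :=
      fermatLastTheoremWith'_polynomial (k := K) (n := 3) le_rfl (by norm_num)
        (v 0) (v 1) (- v 2) h0 h1 (neg_ne_zero.2 h2) (by linear_combination hv)
    rw [Polynomial.isUnit_iff] at u1 u2 u3
    obtain ⟨r1, hr1, rfl⟩ := u1
    obtain ⟨r2, hr2, rfl⟩ := u2
    obtain ⟨r3, hr3, rfl⟩ := u3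
    refine ⟨d, ![r1, r2, -r3], ?_, ?_, ?_⟩
    · rintro rfl
      exact h0 (by rw [e1, mul_zero])
    · intro hc; have := congrFun hc 0; simp at this; exact hr1.ne_zero this
    · intro i
      fin_cases i
      · simpa using e1
      · simpa using e2
      · simp; linear_combination -e3

/-- a projector fixing a vector -/
theorem IsJ.of_fix {Q : Mat K} (hQ : IsJ Q) {u : Fin 3 → K} (hu : u ≠ 0) (h : Q *ᵥ u = u) :
    ∃ z, z ⬝ᵥ u = 1 ∧ Q = vecMulVec u z := by
  obtain ⟨v, z, -, -, -, rfl⟩ := hQ.exists_vec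
  have h1 : ∀ i, u i = v i * (z ⬝ᵥ u) := by
    intro i
    have := congrFun h i
    simp only [mulVec, vecMulVec_apply, dotProduct, Fin.sum_univ_three] at this ⊢
    linear_combination -this
  have hc : z ⬝ᵥ u ≠ 0 := by
    intro hc
    apply hu
    funext i
    rw [h1 i, hc, mul_zero]; rfl
  refine ⟨(z ⬝ᵥ u)⁻¹ • z, ?_, ?_⟩
  · rw [smul_dotProduct, smul_eq_mul, inv_mul_cancel₀ hc]
  · ext i j
    simp only [vecMulVec_apply, Pi.smul_apply, smul_eq_mul]
    rw [h1 i]
    field_simp

/-- the line of a polynomial family of projectors is constant -/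
theorem const_line [IsAlgClosed K] [CharZero K] {P : Mat K[X]} (hP : IsJ P) (s t : K) :
    Same (P.map (eval s)) (P.map (eval t)) := by
  obtain ⟨j, hj⟩ : ∃ j, P j j ≠ 0 := by
    by_contra hc
    push Not at hc
    have := hP.tr
    rw [hc 0, hc 1, hc 2] at this
    simp at this
  obtain ⟨d, u, hd, hu, hdu⟩ := cubic_poly (fun i => P i j)
    (fun hc => hj (congrFun hc j)) (hP.fer0 j)
  have h1 : ∀ i, P i 0 * C (u 0) + P i 1 * C (u 1) + P i 2 * C (u 2) = C (u i) := by
    intro i
    have h2 := congrFun (congrFun hP.idem i) j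
    rw [Matrix.mul_apply, Fin.sum_univ_three] at h2
    rw [hdu 0, hdu 1, hdu 2, hdu i] at h2
    apply mul_right_cancel₀ hd
    linear_combination h2
  have h3 : ∀ t, ∃ z, z ⬝ᵥ u = 1 ∧ P.map (eval t) = vecMulVec u z := by
    intro t
    apply IsJ.of_fix (hP.map (Polynomial.evalRingHom t)) hu
    funext i
    have := congrArg (eval t) (h1 i)
    simp only [eval_add, eval_mul, eval_C] at this
    simp only [mulVec, dotProduct, Fin.sum_univ_three, Matrix.map_apply, coe_evalRingHom]
    exact this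
  obtain ⟨z, hz, hz'⟩ := h3 s
  obtain ⟨y, hy, hy'⟩ := h3 t
  rw [hz', hy']
  exact same_of_smul (c := 1) hz hy (by simp)

theorem fibCurve_zero (x y : Pt K) : (fibCurve x y).γ 0 = x := by
  apply Pt.ext
  · show th1 x.P (_ + (0:K) • _) = x.P
    rw [zero_smul, add_zero]
    exact th1_thi x.h.J.idem (same_self x.h.J.idem)
  · show th2 x.P (_ + (0:K) • _) = x.m
    rw [zero_smul, add_zero]
    exact th2_thi x.h.J.idem (same_self x.h.J.idem) x.h.lin
  · show x.w + (0:K) • _ = x.w
    rw [zero_smul, add_zero]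

theorem fibCurve_one (x y : Pt K) (hs : Same x.P y.P) : (fibCurve x y).γ 1 = y := by
  apply Pt.ext
  · show th1 x.P (_ + (1:K) • _) = y.P
    rw [one_smul, add_sub_cancel]
    exact th1_thi x.h.J.idem hs
  · show th2 x.P (_ + (1:K) • _) = y.m
    rw [one_smul, add_sub_cancel]
    exact th2_thi x.h.J.idem hs y.h.lin
  · show x.w + (1:K) • _ = y.w
    rw [one_smul, add_sub_cancel]

/-- endomorphisms preserve the relation of lying in one fibre -/
theorem not_two [IsAlgClosed K] [CharZero K] (g : OO K →ₐ[K] OO K) {x1 x2 y1 y2 : Pt K}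
    (hs : Same x1.P x2.P) (h1 : ∀ f, ev x1 (g f) = ev y1 f) (h2 : ∀ f, ev x2 (g f) = ev y2 f) :
    Same y1.P y2.P := by
  have hinf : Infinite K := inferInstance
  let c := fibCurve x1 x2
  have hJ : IsJ ((gm 0 : Mat (OO K)).map (c.hom.comp g)) :=
    isPt_gm.J.map ((c.hom.comp g : OO K →ₐ[K] K[X]) : OO K →+* K[X])
  have h3 := const_line hJ 0 1
  have e0 : ((gm 0 : Mat (OO K)).map (c.hom.comp g)).map (eval 0) = y1.P := by
    ext i j
    simp only [Matrix.map_apply, AlgHom.comp_apply]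
    rw [c.eval_hom, fibCurve_zero, h1]
    rfl
  have e1 : ((gm 0 : Mat (OO K)).map (c.hom.comp g)).map (eval 1) = y2.P := by
    ext i j
    simp only [Matrix.map_apply, AlgHom.comp_apply]
    rw [c.eval_hom, fibCurve_one _ _ hs, h2]
    rfl
  rw [e0, e1] at h3
  exact h3

variable (K) in
/-- a second base point, in a different fibre -/
def pt1 : Pt K where
  P := vecMulVec ![0, 1, -1] ![0, 1, 0]
  m := 0
  w := 0
  h := isJ_vec_point (by simp [fer]; norm_num) (by simp)

theorem not_same : ¬ Same (pt0 K).P (pt1 K).P := by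
  intro h
  obtain ⟨z', -, hz⟩ := h.exists_vec (v := ![1, -1, 0]) (z := ![1, 0, 0]) (by simp)
  have := congrFun (congrFun hz 2) 1
  simp [pt1, vecMulVec_apply] at this

variable (K) in
/-- a point in the fibre of the base point -/
def pt2 : Pt K := trans 1 (pt0 K)

theorem pt0_ne_pt2 : pt0 K ≠ pt2 K := by
  intro h
  have := congrArg (fun x : Pt K => x.w 0 0) h
  simp [pt0, pt2, trans] at this

theorem pt0_ne_pt1 : pt0 K ≠ pt1 K := by
  intro h
  apply not_same (K := K)
  rw [← h]
  exact same_self (pt0 K).h.J.idem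

theorem same_pt2 : Same (pt0 K).P (pt2 K).P := same_self (pt0 K).h.J.idem

/-- the Krull dimension is at least two -/
theorem two_le_dim [IsAlgClosed K] [CharZero K] : (2 : WithBot ℕ∞) ≤ ringKrullDim (OO K) := by
  have hinf : Infinite K := inferInstance
  let c := fibCurve (pt0 K) (pt2 K)
  have hp1 : (RingHom.ker (c.hom : OO K →+* K[X])).IsPrime := RingHom.ker_isPrime _
  have hp2 : (RingHom.ker (ev (pt0 K) : OO K →+* K)).IsPrime := RingHom.ker_isPrime _
  let p0 : PrimeSpectrum (OO K) := ⟨⊥, Ideal.isPrime_bot⟩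
  let p1 : PrimeSpectrum (OO K) := ⟨_, hp1⟩
  let p2 : PrimeSpectrum (OO K) := ⟨_, hp2⟩
  have hw : ∀ t i j, (c.γ t).w i j = t * (1 : Mat K) i j := by
    intro t i j
    show ((pt0 K).w + t • ((pt2 K).w - (pt0 K).w)) i j = _
    simp [pt0, pt2, trans]
  have h01 : p0 < p1 := by
    rw [← PrimeSpectrum.asIdeal_lt_asIdeal]
    show (⊥ : Ideal (OO K)) < _
    rw [bot_lt_iff_ne_bot]
    intro hbot
    have hmem : (gm 2 0 1 : OO K) ∈ p1.asIdeal := by
      show c.hom (gm 2 0 1) = 0
      apply Polynomial.funext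
      intro t
      rw [c.eval_hom]
      show (c.γ t).w 0 1 = _
      rw [hw]
      simp
    rw [hbot, Ideal.mem_bot] at hmem
    let x : Pt K := trans (Matrix.of fun _ _ => 1) (pt0 K)
    have := congrArg (ev x) hmem
    rw [map_zero] at this
    have h2 : ev x (gm 2 0 1) = x.w 0 1 := rfl
    rw [h2] at this
    simp [x, trans, pt0] at this
  have h12 : p1 < p2 := by
    rw [← PrimeSpectrum.asIdeal_lt_asIdeal]
    refine lt_of_le_of_ne ?_ ?_
    · intro f hf
      have hf' : c.hom f = 0 := hf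
      show ev (pt0 K) f = 0
      rw [← fibCurve_zero (pt0 K) (pt2 K), ← c.eval_hom, hf', eval_zero]
    · intro heq
      have hmem : (gm 2 0 0 : OO K) ∈ p2.asIdeal := by
        show ev (pt0 K) (gm 2 0 0) = 0
        show (pt0 K).w 0 0 = 0
        simp [pt0]
      rw [← heq] at hmem
      have h2 : c.hom (gm 2 0 0) = 0 := hmem
      have h3 := congrArg (eval 1) h2
      rw [c.eval_hom, eval_zero] at h3
      have h4 : ev (c.γ 1) (gm 2 0 0) = (c.γ 1).w 0 0 := rfl
      rw [h4, hw] at h3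
      simp at h3
  let L : LTSeries (PrimeSpectrum (OO K)) :=
    { length := 2
      toFun := ![p0, p1, p2]
      step := by
        intro i
        fin_cases i
        · exact h01
        · exact h12 }
  exact Order.LTSeries.length_le_krullDim L

end Pool.Agent.H638R3.IT
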