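import Mathlib
import Pool.Agent.H638R3.IT.Final

/-!
# Passage to schemes
-/

set_option autoImplicit false

open AlgebraicGeometry CategoryTheory

namespace Pool.Agent.H638R3.IT

variable {K : Type} [Field K]

variable (K) in
/-- the affine variety -/
noncomputable abbrev XX : Scheme.{0} := Spec (CommRingCat.of (OO K))

variable (K) in
/-- its structure morphism -/
noncomputable def ff : XX K ⟶ Spec (CommRingCat.of K) :=
  Spec.map (CommRingCat.ofHom (algebraMap K (OO K)))

/-- the rational point attached to a point of the variety -/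
noncomputable def spt (x : Pt K) : Spec (CommRingCat.of K) ⟶ XX K :=
  Spec.map (CommRingCat.ofHom (ev x : OO K →ₐ[K] K).toRingHom)

/-- the endomorphism of the scheme attached to an algebra endomorphism -/
noncomputable def send (g : OO K →ₐ[K] OO K) : XX K ⟶ XX K :=
  Spec.map (CommRingCat.ofHom g.toRingHom)

theorem spt_ff (x : Pt K) : spt x ≫ ff K = 𝟙 _ := by
  rw [spt, ff, ← Spec.map_comp, ← CommRingCat.ofHom_comp]
  have : (ev x : OO K →ₐ[K] K).toRingHom.comp (algebraMap K (OO K)) = RingHom.id K := by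
    ext c
    exact (ev x).commutes c
  rw [this]
  exact Spec.map_id _

theorem send_ff (g : OO K →ₐ[K] OO K) : send g ≫ ff K = ff K := by
  rw [send, ff, ← Spec.map_comp, ← CommRingCat.ofHom_comp]
  have : g.toRingHom.comp (algebraMap K (OO K)) = algebraMap K (OO K) :=
    RingHom.ext fun c => g.commutes c
  rw [this]

theorem spt_send (x y : Pt K) (g : OO K →ₐ[K] OO K) (h : ∀ f, ev x (g f) = ev y f) :
    spt x ≫ send g = spt y := by
  rw [spt, send, spt, ← Spec.map_comp, ← CommRingCat.ofHom_comp]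
  have : (ev x : OO K →ₐ[K] K).toRingHom.comp g.toRingHom = (ev y : OO K →ₐ[K] K).toRingHom := by
    ext f
    exact h f
  rw [this]

theorem send_send (g h : OO K →ₐ[K] OO K) : send g ≫ send h = send (g.comp h) := by
  rw [send, send, send, ← Spec.map_comp, ← CommRingCat.ofHom_comp]
  rfl

theorem send_id : send (AlgHom.id K (OO K)) = 𝟙 _ := by
  rw [send]
  exact Spec.map_id _

theorem exists_spt [IsAlgClosed K] [CharZero K] (p : Spec (CommRingCat.of K) ⟶ XX K)
    (hp : p ≫ ff K = 𝟙 _) : ∃ x : Pt K, p = spt x := by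
  let φ := Spec.preimage p
  have hφ : Spec.map φ = p := Spec.map_preimage p
  rw [← hφ, ff, ← Spec.map_comp] at hp
  have h1 : CommRingCat.ofHom (algebraMap K (OO K)) ≫ φ = 𝟙 _ :=
    Spec.map_injective (hp.trans (Spec.map_id _).symm)
  let χ : OO K →ₐ[K] K :=
    { φ.hom with
      commutes' := fun c => by
        have := congrArg (fun ψ => ψ.hom c) h1
        exact this }
  obtain ⟨x, hx⟩ := exists_point χ
  refine ⟨x, ?_⟩
  rw [← hφ, spt, ← hx]
  rfl

theorem exists_send (g : XX K ⟶ XX K) (hg : g ≫ ff K = ff K) :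
    ∃ ψ : OO K →ₐ[K] OO K, g = send ψ := by
  let φ := Spec.preimage g
  have hφ : Spec.map φ = g := Spec.map_preimage g
  rw [← hφ, ff, ← Spec.map_comp] at hg
  have h1 : CommRingCat.ofHom (algebraMap K (OO K)) ≫ φ = CommRingCat.ofHom (algebraMap K (OO K)) :=
    Spec.map_injective hg
  let ψ : OO K →ₐ[K] OO K :=
    { φ.hom with
      commutes' := fun c => by
        have := congrArg (fun ψ => ψ.hom c) h1
        exact this }
  refine ⟨ψ, ?_⟩
  rw [← hφ]
  rfl

theorem spt_injective {x y : Pt K} (h : spt x = spt y) : ∀ f, ev x f = ev y f := by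
  have h1 := Spec.map_injective h
  intro f
  have := congrArg (fun ψ => ψ.hom f) h1
  exact this

theorem pt_eq {x y : Pt K} (h : ∀ f, ev x f = ev y f) : x = y := by
  apply Pt.ext
  · ext i j
    exact h (gm 0 i j)
  · ext i j
    exact h (gm 1 i j)
  · ext i j
    exact h (gm 2 i j)

theorem homog [IsAlgClosed K] [CharZero K]
    (p q : {p : Spec (CommRingCat.of K) ⟶ XX K // p ≫ ff K = 𝟙 _}) :
    ∃ g : XX K ≅ XX K, g.hom ≫ ff K = ff K ∧ p.1 ≫ g.hom = q.1 := by
  obtain ⟨x, hx⟩ := exists_spt p.1 p.2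
  obtain ⟨y, hy⟩ := exists_spt q.1 q.2
  obtain ⟨g, hg⟩ := exists_equiv x y
  refine ⟨⟨send g.toAlgHom, send g.symm.toAlgHom, ?_, ?_⟩, send_ff _, ?_⟩
  · rw [send_send, ← send_id]
    congr 1
    ext f
    simp
  · rw [send_send, ← send_id]
    congr 1
    ext f
    simp
  · rw [hx, hy]
    exact spt_send x y _ hg

theorem not_doubly [IsAlgClosed K] [CharZero K]
    (h : ∀ (m : ℕ) (p q : Fin m → {p : Spec (CommRingCat.of K) ⟶ XX K // p ≫ ff K = 𝟙 _}),
        Function.Injective p → Function.Injective q →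
        ∃ g : XX K ≅ XX K, g.hom ≫ ff K = ff K ∧ ∀ i, (p i).1 ≫ g.hom = (q i).1) : False := by
  have inj : ∀ {x y : Pt K}, x ≠ y → Function.Injective
      (![⟨spt x, spt_ff x⟩, ⟨spt y, spt_ff y⟩] :
        Fin 2 → {p : Spec (CommRingCat.of K) ⟶ XX K // p ≫ ff K = 𝟙 _}) := by
    intro x y hxy i j hij
    have h1 : spt x ≠ spt y := fun hc => hxy (pt_eq (spt_injective hc))
    fin_cases i <;> fin_cases j
    · rfl
    · exact absurd (congrArg Subtype.val hij) h1
    · exact absurd (congrArg Subtype.val hij) h1.symm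
    · rfl
  obtain ⟨g, hg, hpq⟩ := h 2 _ _ (inj (pt0_ne_pt2 (K := K))) (inj (pt0_ne_pt1 (K := K)))
  obtain ⟨ψ, hψ⟩ := exists_send g.hom hg
  have h0 := hpq 0
  have h1 := hpq 1
  rw [hψ] at h0 h1
  have key : ∀ {x y : Pt K}, spt x ≫ send ψ = spt y → ∀ f, ev x (ψ f) = ev y f := by
    intro x y hxy f
    rw [spt, send, spt, ← Spec.map_comp, ← CommRingCat.ofHom_comp] at hxy
    have h1 := Spec.map_injective hxy
    have := congrArg (fun ψ => ψ.hom f) h1
    exact this
  exact not_same (not_two ψ same_pt2 (key h0) (key h1))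

theorem units_const [IsAlgClosed K] [CharZero K] (u : (Γ(XX K, ⊤))ˣ) :
    ∃ c : K, ((Scheme.ΓSpecIso (CommRingCat.of K)).inv ≫ (ff K).appTop).hom c =
      (u : Γ(XX K, ⊤)) := by
  let e := Scheme.ΓSpecIso (CommRingCat.of (OO K))
  have hu : IsUnit (e.hom.hom (u : Γ(XX K, ⊤))) := (Units.isUnit u).map e.hom.hom
  obtain ⟨c, hc⟩ := unit_const hu
  refine ⟨c, ?_⟩
  have h1 : (Scheme.ΓSpecIso (CommRingCat.of K)).inv ≫ (ff K).appTop =
      CommRingCat.ofHom (algebraMap K (OO K)) ≫ e.inv :=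
    (Scheme.ΓSpecIso_inv_naturality _).symm
  rw [h1]
  have h2 : algebraMap K (OO K) c = e.hom.hom (u : Γ(XX K, ⊤)) := by
    apply eq_of_ev
    intro x
    rw [hc x]
    exact (ev x).commutes c
  have h3 : (CommRingCat.ofHom (algebraMap K (OO K)) ≫ e.inv).hom c =
      e.inv.hom (algebraMap K (OO K) c) := rfl
  rw [h3, h2]
  have h4 := congrArg (fun ψ => ψ.hom (u : Γ(XX K, ⊤))) e.hom_inv_id
  exact h4

theorem lft_ff : LocallyOfFiniteType (ff K) := by
  have h : (algebraMap K (OO K)).FiniteType := by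
    rw [RingHom.finiteType_algebraMap]
    infer_instance
  exact (HasRingHomProperty.Spec_iff (P := @LocallyOfFiniteType)).2 h

theorem dim_XX [IsAlgClosed K] [CharZero K] :
    (2 : WithBot ℕ∞) ≤ topologicalKrullDim (XX K) := by
  have h := two_le_dim (K := K)
  rw [← PrimeSpectrum.topologicalKrullDim_eq_ringKrullDim] at h
  exact h

end Pool.Agent.H638R3.IT
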